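import Mathlib

/-!
# The Kauffman bracket skein module of the exterior of the connected sum of two Hopf links

Let `C` be the axis (the circle at infinity of an annulus) and let `M₁`, `M₂` be two parallel
concentric circles around it.  `L = C ∪ M₁ ∪ M₂` is the connected sum of two Hopf links (`M₁`, `M₂`
are parallel meridian curves of the unknot `C`).  The exterior of `C` is a solid torus `D × S¹`,
`D = [0,1] × [0,1]` a square, in which `M₁`, `M₂` are the circles `{p₁} × S¹`, `{p₂} × S¹`; so the
exterior of `L` is `P × S¹`, `P` the square `D` without two open disks around `p₁`, `p₂`.

Framed links in `P × S¹` are drawn in the annulus `[0,1] × S¹` together with the two circles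
`M₁`, `M₂` (`p₁` on the left of `p₂`), which are called the *poles*.  The annulus is cut at one level
of `S¹` and read from top to bottom.  At each level there are finitely many strands from left to
right: strands of the link, written `true`, and the two poles, written `false`.  The poles never
turn back, and they never cross each other; they are fixed.
-/

set_option autoImplicit false

namespace Pool.Agent.P8H80.SK

/-- The indeterminate `A` of the field `ℚ(A)`. -/
noncomputable def A : RatFunc ℚ := RatFunc.X

/-- Elementary events: a maximum (`cup`: two new strands of the link appear), a minimum (`cap`: two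
neighbouring strands of the link disappear), a crossing of two neighbouring strands, at least one of
which belongs to the link.  In `cross b` the strand from the top left to the bottom right passes
over the other one if `b = true`, and under it if `b = false`. -/
inductive Elem : Type
  | cup
  | cap
  | cross (b : Bool)

/-- The number of strands which enter an event from above. -/
def Elem.src : Elem → ℕ
  | .cup => 0
  | .cap => 2
  | .cross _ => 2

/-- The number of strands which leave an event below. -/
def Elem.tgt : Elem → ℕ
  | .cup => 2
  | .cap => 0
  | .cross _ => 2

/-- An event on the far left; `l` is the list of the strands above it (`true`: a strand of the link,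
`false`: a pole). The result is the list of the strands below it, if the event is possible. -/
def Elem.head : Elem → List Bool → Option (List Bool)
  | .cup, l => some (true :: true :: l)
  | .cap, true :: true :: l => some l
  | .cap, _ => none
  | .cross _, x :: y :: l => if x || y then some (y :: x :: l) else none
  | .cross _, _ => none

/-- The event `e` with `i` strands on its left. -/
def step : ℕ → Elem → List Bool → Option (List Bool)
  | 0, e, l => e.head l
  | _ + 1, _, [] => none
  | i + 1, e, x :: l => (step i e l).map (x :: ·)

/-- A sequence of events is a list of events, each with the number of strands on its left, read from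
top to bottom. `run w l` is the list of the strands below the events `w`, if the strands above are
`l`; it is `none` if the events do not fit together. -/
def run : List (ℕ × Elem) → List Bool → Option (List Bool)
  | [], l => some l
  | p :: w, l => (step p.1 p.2 l).bind (run w)

/-- The diagrams, in the annulus, of framed links (with the blackboard framing) in the exterior of
`L`: `top` is the list of the strands at the level where the annulus is cut, two of them are the
poles. -/
structure Diagram : Type where
  top : List Bool
  word : List (ℕ × Elem)
  closed : run word top = some top
  poles : top.count false = 2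

/-- The local moves of isotopies of framed links in the exterior of `L`: `zig`, `zag`, `slideCup`,
`slideCap`, `far` (together with rotations of the annulus) are the planar isotopies of diagrams; `r1`
is the framed first Reidemeister move, `r2` and `r3` are the second and the third one. Some of the
strands which take part in the moves `slideCup`, `slideCap`, `r2`, `r3`, `far` may be poles, as far as
the events are possible. -/
inductive Move : List (ℕ × Elem) → List (ℕ × Elem) → Prop
  | zig (i : ℕ) : Move [(i, .cup), (i + 1, .cap)] []
  | zag (i : ℕ) : Move [(i + 1, .cup), (i, .cap)] []
  | slideCup (i : ℕ) (b : Bool) :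
      Move [(i, .cup), (i + 1, .cross b)] [(i + 1, .cup), (i, .cross (!b))]
  | slideCap (i : ℕ) (b : Bool) :
      Move [(i + 1, .cross b), (i, .cap)] [(i, .cross (!b)), (i + 1, .cap)]
  | r1 (i : ℕ) (b : Bool) :
      Move [(i + 1, .cup), (i, .cross b), (i + 1, .cap)] [(i, .cup), (i + 1, .cross b), (i, .cap)]
  | r2 (i : ℕ) (b : Bool) : Move [(i, .cross b), (i, .cross (!b))] []
  | r3 (i : ℕ) (a b c : Bool) (h : a = c → b = a) :
      Move [(i, .cross a), (i + 1, .cross b), (i, .cross c)]
        [(i + 1, .cross c), (i, .cross b), (i + 1, .cross a)]
  | far (i j : ℕ) (e f : Elem) (h : i + e.src ≤ j) :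
      Move [(i, e), (j - e.src + e.tgt, f)] [(j, f), (i, e)]

/-- Two diagrams are related by a local move or by a rotation of the annulus (a change of the level
where it is cut). The equivalence relation generated by `Step` is isotopy of framed links in the
exterior of `L`. -/
inductive Step : Diagram → Diagram → Prop
  | move (D D' : Diagram) (u a b v : List (ℕ × Elem)) (h : Move a b) (ht : D'.top = D.top)
      (hD : D.word = u ++ a ++ v) (hD' : D'.word = u ++ b ++ v) : Step D D'
  | rotate (D D' : Diagram) (u v : List (ℕ × Elem)) (hu : run u D.top = some D'.top)
      (hD : D.word = u ++ v) (hD' : D'.word = v ++ u) : Step D D'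

/-- The basis vector of a diagram, in the vector space over `ℚ(A)` with the diagrams as basis. -/
noncomputable def cls (D : Diagram) : Diagram →₀ RatFunc ℚ := Finsupp.single D 1

/-- `A` or `A⁻¹`. -/
noncomputable def Ab (b : Bool) : RatFunc ℚ := if b then A else A⁻¹

/-- The relations of the Kauffman bracket skein module. Isotopic framed links are equal. A crossing
of two strands of the link is `A` times its smoothing of the first kind (the regions which the upper
strand sweeps out when it is turned counterclockwise are joined) plus `A⁻¹` times its other
smoothing; so `cross true` is `A` times `cap`, `cup` plus `A⁻¹` times two vertical strands. A trivial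
circle is `-A² - A⁻²`. -/
inductive Rel : (Diagram →₀ RatFunc ℚ) → Prop
  | isotopy (D D' : Diagram) (h : Step D D') : Rel (cls D - cls D')
  | kauffman (D D₀ D₁ : Diagram) (u v : List (ℕ × Elem)) (i : ℕ) (b : Bool)
      (h₀ : D₀.top = D.top) (h₁ : D₁.top = D.top)
      (hD : D.word = u ++ (i, .cross b) :: v)
      (hD₀ : D₀.word = u ++ (i, .cap) :: (i, .cup) :: v) (hD₁ : D₁.word = u ++ v) :
      Rel (cls D - (Ab b • cls D₀ + (Ab b)⁻¹ • cls D₁))
  | circle (D D' : Diagram) (u v : List (ℕ × Elem)) (i : ℕ) (ht : D'.top = D.top)
      (hD : D.word = u ++ (i, .cup) :: (i, .cap) :: v) (hD' : D'.word = u ++ v) :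
      Rel (cls D - (-A ^ 2 - (A⁻¹) ^ 2) • cls D')

/-- The subspace spanned by the relations. -/
noncomputable def Rels : Submodule (RatFunc ℚ) (Diagram →₀ RatFunc ℚ) :=
  Submodule.span (RatFunc ℚ) {x | Rel x}

/-- The Kauffman bracket skein module `K(E_L, ℚ(A))` of the exterior of `L`. -/
def SkeinModule : Type := (Diagram →₀ RatFunc ℚ) ⧸ Rels

noncomputable instance : AddCommGroup SkeinModule :=
  inferInstanceAs (AddCommGroup ((Diagram →₀ RatFunc ℚ) ⧸ Rels))

noncomputable instance : Module (RatFunc ℚ) SkeinModule :=
  inferInstanceAs (Module (RatFunc ℚ) ((Diagram →₀ RatFunc ℚ) ⧸ Rels))

/-- The class of a diagram in the skein module. -/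
noncomputable def skeinClass (D : Diagram) : SkeinModule := Submodule.Quotient.mk (cls D)

/-- The position of the pole number `k` (`k = 0` or `k = 1`) in a list of strands. -/
def polePos : List Bool → ℕ → ℕ
  | [], _ => 0
  | true :: l, k => polePos l k + 1
  | false :: _, 0 => 0
  | false :: l, k + 1 => polePos l k + 1

/-- A small circle around the strand at the position `i`: it has a maximum and a minimum on the right
of this strand and passes over it and under it. -/
def circ (i : ℕ) : List (ℕ × Elem) := [(i + 1, .cup), (i, .cross false), (i, .cross false), (i + 1, .cap)]

/-- The field `ℚ(A)`. -/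
abbrev F : Type := RatFunc ℚ

/-- A sequence of events. -/
abbrev Word : Type := List (ℕ × Elem)

/-- The vector space over `ℚ(A)` with the diagrams as basis. -/
abbrev Free : Type := Diagram →₀ RatFunc ℚ

/-- The skein module as a quotient space. -/
abbrev Skein : Type := (Diagram →₀ RatFunc ℚ) ⧸ Rels

end Pool.Agent.P8H80.SK
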