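import Pool.Agent.P8H80.SK.Growth

/-!
# The skein module is not finitely generated over the meridians
-/

set_option autoImplicit false
set_option linter.unusedSimpArgs false

namespace Pool.Agent.P8H80.SK

open Polynomial

/-- the algebra generated by the three meridians -/
noncomputable abbrev Mer : Subalgebra F (Module.End F Skein) := Algebra.adjoin F {mC, mM 0, mM 1}

/-- the functions as a module over the polynomials in `H` -/
abbrev FH : Type := Module.AEval' H

/-- the map `Psi` into this module -/
noncomputable def PsiH (z : Skein) : FH := Module.AEval'.of H (Psi z)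

theorem PsiH_add (z z' : Skein) : PsiH (z + z') = PsiH z + PsiH z' := by
  simp only [PsiH, map_add]

theorem PsiH_smul (b : Mer) : ∃ p : F[X], ∀ z : Skein, PsiH (b • z) = p • PsiH z := by
  obtain ⟨b, hb⟩ := b
  change ∃ p : F[X], ∀ z : Skein, PsiH (b z) = p • PsiH z
  induction hb using Algebra.adjoin_induction with
  | mem x hx =>
    simp only [Set.mem_insert_iff, Set.mem_singleton_iff] at hx
    rcases hx with rfl | rfl | rfl
    · refine ⟨X, fun z => ?_⟩
      unfold PsiH
      rw [Psi_mC, Module.AEval'.X_smul_of]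
    · refine ⟨C (-A ^ 2 - (A⁻¹) ^ 2), fun z => ?_⟩
      unfold PsiH
      rw [Psi_mM, Module.AEval.C_smul, map_smul]
    · refine ⟨C (-A ^ 2 - (A⁻¹) ^ 2), fun z => ?_⟩
      unfold PsiH
      rw [Psi_mM, Module.AEval.C_smul, map_smul]
  | algebraMap r =>
    refine ⟨C r, fun z => ?_⟩
    unfold PsiH
    rw [Module.AEval.C_smul, ← map_smul, ← map_smul]
    rfl
  | add x y _ _ hx hy =>
    obtain ⟨p, hp⟩ := hx
    obtain ⟨q, hq⟩ := hy
    refine ⟨p + q, fun z => ?_⟩
    rw [LinearMap.add_apply, PsiH_add, hp, hq, add_smul]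
  | mul x y _ _ hx hy =>
    obtain ⟨p, hp⟩ := hx
    obtain ⟨q, hq⟩ := hy
    refine ⟨p * q, fun z => ?_⟩
    rw [Module.End.mul_apply, hp, hq, mul_smul]

/-- functions of growth at most `a` as a submodule over the polynomials -/
noncomputable def GrH (a : ℕ) : Submodule F[X] FH :=
  Module.AEval.mapSubmodule F (ℤ → F) H ⟨Gr a, fun _ hf => H_mem_Gr hf⟩

theorem mem_GrH {a : ℕ} {f : ℤ → F} : Module.AEval'.of H f ∈ GrH a ↔ f ∈ Gr a := by
  unfold GrH
  rw [Module.AEval.mem_mapSubmodule_apply]
  rfl

theorem not_fg : ¬ Module.Finite Mer Skein := by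
  rintro ⟨S, hS⟩
  -- the image of the skein module lies in a finitely generated module over the polynomials
  let N : Submodule F[X] FH := Submodule.span F[X] (PsiH '' (S : Set Skein))
  have hN : N.FG := ⟨(S.finite_toSet.image PsiH).toFinset, by simp [N]⟩
  have h1 : ∀ z : Skein, PsiH z ∈ N := by
    intro z
    have hz : z ∈ Submodule.span Mer (S : Set Skein) := by rw [hS]; trivial
    induction hz using Submodule.span_induction with
    | mem x hx => exact Submodule.subset_span ⟨x, hx, rfl⟩
    | zero =>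
      have : PsiH 0 = 0 := by simp [PsiH]
      rw [this]
      exact N.zero_mem
    | add x y _ _ hx hy => rw [PsiH_add]; exact N.add_mem hx hy
    | smul b x _ hx =>
      obtain ⟨p, hp⟩ := PsiH_smul b
      rw [hp]
      exact N.smul_mem _ hx
  have hNoeth : IsNoetherian F[X] N := isNoetherian_of_fg_of_noetherian N hN
  -- the chain of the submodules generated by the functions of few circles
  let e : ℕ → N := fun n => ⟨PsiH (Submodule.Quotient.mk (cls (Dn n))), h1 _⟩
  let M : ℕ →o Submodule F[X] N :=
    ⟨fun n => Submodule.span F[X] (e '' Set.Iic n), fun m n h =>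
      Submodule.span_mono (Set.image_mono (Set.Iic_subset_Iic.mpr h))⟩
  obtain ⟨n, hn⟩ := monotone_stabilizes_iff_noetherian.mpr hNoeth M
  have h2 : e (n + 1) ∈ M n := by
    rw [hn (n + 1) (Nat.le_succ n)]
    exact Submodule.subset_span ⟨n + 1, Set.mem_Iic.mpr le_rfl, rfl⟩
  have h3 : M n ≤ (GrH (2 * n)).comap N.subtype := by
    refine Submodule.span_le.mpr ?_
    rintro _ ⟨m, hm, rfl⟩
    change PsiH (Submodule.Quotient.mk (cls (Dn m))) ∈ GrH (2 * n)
    refine mem_GrH.mpr (Gr_mono ?_ (pe_mem m))
    have := Set.mem_Iic.mp hm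
    omega
  have h4 : PsiH (Submodule.Quotient.mk (cls (Dn (n + 1)))) ∈ GrH (2 * n) := h3 h2
  exact pe_notMem (n + 1) (2 * n) (by omega) (mem_GrH.mp h4)

end Pool.Agent.P8H80.SK
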