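import Pool.Agent.P8H80.SK.Trace

/-!
# The functional on the skein module
-/

set_option autoImplicit false
set_option linter.unusedSectionVars false
set_option linter.unusedSimpArgs false
set_option linter.unusedTactic false
set_option linter.unreachableTactic false

namespace Pool.Agent.P8H80.SK

section

variable {K : Type} [Field K] [Par K]

theorem kauffman_bs (i : ℕ) (b : Bool) (x : List Cell) (l' : List Bool)
    (h : step i .cap (kinds x) = some l') :
    T1 K i (.cross b) (bs K x) =
      pb K b • T1 K i .cup (T1 K i .cap (bs K x)) + (pb K b)⁻¹ • bs K x := by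
  have hp := pa_ne (K := K)
  induction i generalizing x l' with
  | zero =>
    rcases x with _ | ⟨(_ | _) | j, _ | ⟨(_ | _) | j', x⟩⟩ <;>
      simp only [step, kinds_nil, kinds_cons, kind_inl, kind_inr, Elem.head, reduceCtorEq] at h
    · simp only [T1_zero_bs, hd, map_zero, smul_zero, zero_add]
    · cases b <;>
      simp only [T1_zero_bs, hd, map_zero, smul_zero, zero_add, smul_add, pb] <;>
      match_scalars <;> field_simp <;> ring
    · cases b <;>
      simp only [T1_zero_bs, hd, map_zero, smul_zero, zero_add, smul_add, pb, map_smul] <;>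
      match_scalars <;> field_simp <;> ring
    · simp only [T1_zero_bs, hd, map_zero, smul_zero, zero_add]
  | succ i ih =>
    cases x with
    | nil => simp [step] at h
    | cons c x =>
      simp only [kinds_cons, step] at h
      cases h3 : step i .cap (kinds x) with
      | none => rw [h3] at h; simp at h
      | some l3 =>
        rw [T1_succ_bs, T1_succ_bs, T1_cons, ih x l3 h3]
        simp

theorem circle_bs (i : ℕ) (x : List Cell) (l' : List Bool)
    (h : step i .cup (kinds x) = some l') :
    T1 K i .cap (T1 K i .cup (bs K x)) = (-(pa K) ^ 2 - ((pa K)⁻¹) ^ 2) • bs K x := by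
  have hp := pa_ne (K := K)
  induction i generalizing x l' with
  | zero =>
    simp only [T1_zero_bs, hd, map_add, map_smul]
    match_scalars
    field_simp
    ring
  | succ i ih =>
    cases x with
    | nil => simp [step] at h
    | cons c x =>
      simp only [kinds_cons, step] at h
      cases h3 : step i .cup (kinds x) with
      | none => rw [h3] at h; simp at h
      | some l3 =>
        rw [T1_succ_bs, T1_cons, ih x l3 h3]
        simp

theorem eq_on_Sup {l : List Bool} {w : ℤ} {f f' : V K →ₗ[K] V K}
    (h : ∀ x, kinds x = l → f (bs K x) = f' (bs K x)) {v : V K} (hv : v ∈ Sup K l w) :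
    f v = f' v := by
  have h1 := map_mem_of_bs (f - f') l w (⊥ : Submodule K (V K)) (fun x h1 _ => by
    simp only [LinearMap.sub_apply, Submodule.mem_bot]
    rw [h x h1, sub_self]) hv
  simp only [LinearMap.sub_apply, Submodule.mem_bot] at h1
  exact sub_eq_zero.mp h1

theorem psi_kauffman (D D₀ D₁ : Diagram) (u v : Word) (i : ℕ) (b : Bool)
    (h₀ : D₀.top = D.top) (h₁ : D₁.top = D.top)
    (hD : D.word = u ++ (i, .cross b) :: v)
    (hD₀ : D₀.word = u ++ (i, .cap) :: (i, .cup) :: v) (hD₁ : D₁.word = u ++ v) :
    psi K D = pb K b • psi K D₀ + (pb K b)⁻¹ • psi K D₁ := by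
  funext w
  simp only [Pi.add_apply, Pi.smul_apply, smul_eq_mul]
  unfold psi
  rw [h₀, h₁, ← tr_smul, ← tr_smul, ← tr_add]
  apply tr_congr
  intro x hx
  rw [hD, hD₀, hD₁]
  simp only [LinearMap.add_apply, LinearMap.smul_apply, T_append, T_cons]
  have h2 := D₀.closed
  rw [h₀, hD₀, run_append] at h2
  cases hu : run u D.top with
  | none => rw [hu] at h2; simp at h2
  | some l1 =>
    rw [hu] at h2
    simp only [Option.bind_some, run] at h2
    cases ha : step i .cap l1 with
    | none => rw [ha] at h2; simp at h2
    | some l2 =>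
      have h3 := eq_on_Sup (f := T1 K i (.cross b))
        (f' := pb K b • (T1 K i .cup ∘ₗ T1 K i .cap) + (pb K b)⁻¹ • LinearMap.id)
        (fun x hx => by
          simp only [LinearMap.add_apply, LinearMap.smul_apply, LinearMap.comp_apply,
            LinearMap.id_apply]
          exact kauffman_bs i b x l2 (by rw [hx]; exact ha)) (T_mem_Sup hu hx)
      rw [h3]
      simp

theorem psi_circle (D D' : Diagram) (u v : Word) (i : ℕ) (ht : D'.top = D.top)
    (hD : D.word = u ++ (i, .cup) :: (i, .cap) :: v) (hD' : D'.word = u ++ v) :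
    psi K D = (-(pa K) ^ 2 - ((pa K)⁻¹) ^ 2) • psi K D' := by
  funext w
  simp only [Pi.smul_apply, smul_eq_mul]
  unfold psi
  rw [ht, ← tr_smul]
  apply tr_congr
  intro x hx
  rw [hD, hD']
  simp only [LinearMap.smul_apply, T_append, T_cons]
  have h2 := D.closed
  rw [hD, run_append] at h2
  cases hu : run u D.top with
  | none => rw [hu] at h2; simp at h2
  | some l1 =>
    rw [hu] at h2
    simp only [Option.bind_some, run] at h2
    cases ha : step i .cup l1 with
    | none => rw [ha] at h2; simp at h2
    | some l2 =>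
      have h3 := eq_on_Sup (f := T1 K i .cap ∘ₗ T1 K i .cup)
        (f' := (-(pa K) ^ 2 - ((pa K)⁻¹) ^ 2) • LinearMap.id)
        (fun x hx => by
          simp only [LinearMap.smul_apply, LinearMap.comp_apply, LinearMap.id_apply]
          exact circle_bs i x l2 (by rw [hx]; exact ha)) (T_mem_Sup hu hx)
      simp only [LinearMap.comp_apply, LinearMap.smul_apply, LinearMap.id_apply] at h3
      rw [h3]
      simp

end

theorem A_ne : A ≠ 0 := RatFunc.X_ne_zero

noncomputable instance : Par F := ⟨A, A_ne⟩

theorem pb_eq (b : Bool) : pb F b = Ab b := by cases b <;> rfl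

/-- the weighted traces -/
noncomputable def PsiF : Free →ₗ[F] (ℤ → F) := Finsupp.linearCombination F (psi F)

theorem PsiF_cls (D : Diagram) : PsiF (cls D) = psi F D := by
  simp [PsiF, cls]

theorem Rels_le : Rels ≤ LinearMap.ker PsiF := by
  unfold Rels
  rw [Submodule.span_le]
  rintro x hx
  simp only [Set.mem_setOf_eq] at hx
  simp only [SetLike.mem_coe, LinearMap.mem_ker]
  cases hx with
  | isotopy D D' h => rw [map_sub, PsiF_cls, PsiF_cls, psi_step h, sub_self]
  | kauffman D D₀ D₁ u v i b h₀ h₁ hD hD₀ hD₁ =>
    rw [map_sub, map_add, map_smul, map_smul, PsiF_cls, PsiF_cls, PsiF_cls,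
      psi_kauffman D D₀ D₁ u v i b h₀ h₁ hD hD₀ hD₁, pb_eq, sub_self]
  | circle D D' u v i ht hD hD' =>
    rw [map_sub, map_smul, PsiF_cls, PsiF_cls, psi_circle D D' u v i ht hD hD']
    exact sub_self _

/-- the weighted traces on the skein module -/
noncomputable def Psi : Skein →ₗ[F] (ℤ → F) := Rels.liftQ PsiF Rels_le

theorem Psi_cls (D : Diagram) : Psi (Submodule.Quotient.mk (cls D)) = psi F D := by
  rw [Psi, Submodule.liftQ_apply, PsiF_cls]

end Pool.Agent.P8H80.SK
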