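import Pool.Agent.P8H80.SK.Power2

/-!
# The growth of the traces
-/

set_option autoImplicit false
set_option linter.unusedSimpArgs false

namespace Pool.Agent.P8H80.SK

open WithZero

open scoped Classical in
/-- the degree valuation of `ℚ(A)` -/
noncomputable abbrev vv : Valuation F (WithZero (Multiplicative ℤ)) := RatFunc.inftyValuation ℚ

theorem vv_A_zpow (m : ℤ) : vv (A ^ m) = exp m := by
  classical
  unfold vv
  exact RatFunc.inftyValuation.X_zpow ℚ m

theorem exp_log_le {x : WithZero (Multiplicative ℤ)} : ∃ b : ℤ, x ≤ exp b := by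
  by_cases hx : x = 0
  · exact ⟨0, by rw [hx]; exact zero_le'⟩
  · exact ⟨log x, by rw [exp_log hx]⟩

/-- functions of growth at most `a` -/
noncomputable def Gr (a : ℕ) : Submodule F (ℤ → F) where
  carrier := {f | ∃ B : ℤ, ∀ w : ℤ, vv (f w) ≤ exp (B + a * |w|)}
  add_mem' := by
    rintro f g ⟨B, hB⟩ ⟨B', hB'⟩
    refine ⟨max B B', fun w => (Valuation.map_add _ _ _).trans (max_le ?_ ?_)⟩
    · refine (hB w).trans (exp_le_exp.mpr ?_)
      have := le_max_left B B'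
      linarith
    · refine (hB' w).trans (exp_le_exp.mpr ?_)
      have := le_max_right B B'
      linarith
  zero_mem' := ⟨0, fun w => by simp⟩
  smul_mem' := by
    rintro c f ⟨B, hB⟩
    obtain ⟨b, hb⟩ := exp_log_le (x := vv c)
    refine ⟨b + B, fun w => ?_⟩
    rw [Pi.smul_apply, smul_eq_mul, map_mul]
    refine (mul_le_mul' hb (hB w)).trans ?_
    rw [← exp_add, add_assoc]

theorem mem_Gr {a : ℕ} {f : ℤ → F} : f ∈ Gr a ↔ ∃ B : ℤ, ∀ w : ℤ, vv (f w) ≤ exp (B + a * |w|) :=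
  Iff.rfl

theorem Gr_mono {a b : ℕ} (h : a ≤ b) : Gr a ≤ Gr b := by
  rintro f ⟨B, hB⟩
  refine ⟨B, fun w => (hB w).trans (exp_le_exp.mpr ?_)⟩
  have h1 : (a : ℤ) ≤ b := by exact_mod_cast h
  have h2 := mul_le_mul_of_nonneg_right h1 (abs_nonneg w)
  linarith

theorem H_mem_Gr {a : ℕ} {f : ℤ → F} (h : f ∈ Gr a) : H f ∈ Gr a := by
  obtain ⟨B, hB⟩ := h
  refine ⟨B + a, fun w => ?_⟩
  change vv (f (w - 1) + f (w + 1)) ≤ _
  refine (Valuation.map_add _ _ _).trans (max_le ?_ ?_)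
  · refine (hB _).trans (exp_le_exp.mpr ?_)
    have h1 : |w - 1| ≤ |w| + 1 := by
      have := abs_sub w 1
      simpa using this
    have h2 := mul_le_mul_of_nonneg_left h1 (Int.natCast_nonneg a)
    linarith
  · refine (hB _).trans (exp_le_exp.mpr ?_)
    have h1 : |w + 1| ≤ |w| + 1 := by
      have := abs_add_le w 1
      simpa using this
    have h2 := mul_le_mul_of_nonneg_left h1 (Int.natCast_nonneg a)
    linarith

theorem kk_eq (d : ℕ) : kk F d = A ^ ((2 * d : ℕ) : ℤ) := by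
  rw [zpow_natCast]; rfl

theorem cc_eq (d : ℕ) : cc F d = -(A ^ (4 * (d : ℤ) - 2) + A ^ (2 - 4 * (d : ℤ))) := by
  have hA := A_ne
  unfold cc
  rw [kk_eq]
  change -((A ^ ((2 * d : ℕ) : ℤ)) ^ 2 * (A⁻¹) ^ 2 + ((A ^ ((2 * d : ℕ) : ℤ))⁻¹) ^ 2 * A ^ 2) = _
  congr 2
  · rw [← zpow_natCast, ← zpow_natCast, ← zpow_mul, inv_zpow', ← zpow_add₀ hA]
    congr 1
    push_cast
    ring
  · rw [← zpow_natCast, ← zpow_natCast, inv_zpow', ← zpow_mul, ← zpow_add₀ hA]
    congr 1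
    push_cast
    ring

theorem vv_cc_le (d : ℕ) : vv (cc F d) ≤ exp (4 * (d : ℤ) + 2) := by
  rw [cc_eq, Valuation.map_neg]
  refine (Valuation.map_add _ _ _).trans (max_le ?_ ?_)
  · rw [vv_A_zpow]; exact exp_le_exp.mpr (by omega)
  · rw [vv_A_zpow]; exact exp_le_exp.mpr (by omega)

theorem vv_cc_succ (d : ℕ) : vv (cc F (d + 1)) = exp (4 * (d : ℤ) + 2) := by
  rw [cc_eq, Valuation.map_neg, Valuation.map_add_eq_of_lt_left]
  · rw [vv_A_zpow]
    congr 1
    push_cast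
    ring
  · rw [vv_A_zpow, vv_A_zpow]
    exact exp_lt_exp.mpr (by push_cast; omega)

theorem vv_tau_le (n d : ℕ) : vv (tau F n d) ≤ exp (2 * (n : ℤ) + ((2 * n : ℕ) : ℤ) * (2 * (d : ℤ))) := by
  rw [tau_eq]
  refine Valuation.map_sum_le _ fun i hi => ?_
  rw [Finset.mem_range] at hi
  rw [map_pow]
  refine (pow_le_pow_left' (vv_cc_le i) n).trans ?_
  rw [← exp_nsmul]
  refine exp_le_exp.mpr ?_
  rw [nsmul_eq_mul]
  have h1 : 4 * (i : ℤ) + 2 ≤ 4 * (d : ℤ) + 2 := by omega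
  have h2 := mul_le_mul_of_nonneg_left h1 (Int.natCast_nonneg n)
  push_cast
  linarith

/-- the function of `n` parallel circles around both poles -/
noncomputable def pe (n : ℕ) : ℤ → F := Psi (Submodule.Quotient.mk (cls (Dn n)))

theorem pe_even (n d : ℕ) : pe n (-2 * (d : ℤ)) = tau F n d := by
  rw [pe, Psi_cls]; rfl

theorem pe_other (n : ℕ) (w : ℤ) (h : ∀ d : ℕ, w ≠ -2 * (d : ℤ)) : pe n w = 0 := by
  rw [pe, Psi_cls]; exact psi_Dn_other n w h

theorem pe_mem (n : ℕ) : pe n ∈ Gr (2 * n) := by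
  refine ⟨2 * n, fun w => ?_⟩
  by_cases h : ∀ d : ℕ, w ≠ -2 * (d : ℤ)
  · rw [pe_other n w h, map_zero]
    exact zero_le'
  · push Not at h
    obtain ⟨d, rfl⟩ := h
    rw [pe_even]
    refine (vv_tau_le n d).trans (exp_le_exp.mpr ?_)
    have : |(-2 * (d : ℤ))| = 2 * (d : ℤ) := by
      rw [abs_mul, abs_of_nonneg (Int.natCast_nonneg d)]
      norm_num
    rw [this]

theorem pe_notMem (n a : ℕ) (ha : a < 2 * n) : pe n ∉ Gr a := by
  rintro ⟨B, hB⟩
  have key : ∀ d : ℕ, (n : ℤ) * (4 * (d : ℤ) + 2) ≤ B + a * (2 * (d : ℤ) + 2) := by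
    intro d
    have h1 := hB (-2 * (d : ℤ))
    have h2 := hB (-2 * ((d + 1 : ℕ) : ℤ))
    rw [pe_even] at h1 h2
    have h3 : tau F n (d + 1) - tau F n d = cc F (d + 1) ^ n := by
      rw [tau_eq, tau_eq, Finset.sum_range_succ _ (d + 1)]
      ring
    have h4 : vv (cc F (d + 1) ^ n) ≤ exp (B + a * (2 * (d : ℤ) + 2)) := by
      rw [← h3]
      refine (Valuation.map_sub _ _ _).trans (max_le ?_ ?_)
      · refine h2.trans (exp_le_exp.mpr ?_)
        have : |(-2 * ((d + 1 : ℕ) : ℤ))| = 2 * (d : ℤ) + 2 := by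
          rw [abs_mul, abs_of_nonneg (Int.natCast_nonneg (d + 1))]
          push_cast
          norm_num
          ring
        rw [this]
      · refine h1.trans (exp_le_exp.mpr ?_)
        have : |(-2 * (d : ℤ))| = 2 * (d : ℤ) := by
          rw [abs_mul, abs_of_nonneg (Int.natCast_nonneg d)]
          norm_num
        rw [this]
        have h5 : 0 ≤ (a : ℤ) := Int.natCast_nonneg a
        linarith
    rw [map_pow, vv_cc_succ, ← exp_nsmul, exp_le_exp, nsmul_eq_mul] at h4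
    exact h4
  -- the inequality fails for large `d`
  have h6 : (a : ℤ) + 1 ≤ 2 * n := by omega
  have h7 := key (B + 2 * a).toNat
  have h8 : B + 2 * a ≤ ((B + 2 * a).toNat : ℤ) := Int.self_le_toNat _
  set m : ℤ := ((B + 2 * a).toNat : ℤ) with hm
  have h9 : 0 ≤ m := Int.natCast_nonneg _
  have h10 : 0 ≤ (a : ℤ) := Int.natCast_nonneg a
  have h11 := mul_le_mul_of_nonneg_right h6 h9
  nlinarith

end Pool.Agent.P8H80.SK
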