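import Pool.Agent.P8H80.SK.Slide3

/-!
# The action of the meridians on the skein module
-/

set_option autoImplicit false
set_option linter.unusedSimpArgs false

namespace Pool.Agent.P8H80.SK

theorem step_right {l l' : List Bool} {i : ℕ} {e : Elem} (r : List Bool)
    (h : step i e l = some l') : step i e (l ++ r) = some (l' ++ r) := by
  induction i generalizing l l' with
  | zero =>
    cases e with
    | cup => simp only [step, Elem.head, Option.some.injEq] at h ⊢; subst h; rfl
    | cap =>
      rcases l with _ | ⟨_ | _, _ | ⟨_ | _, l⟩⟩ <;> simp [step, Elem.head] at h ⊢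
      exact h
    | cross b =>
      rcases l with _ | ⟨_ | _, _ | ⟨_ | _, l⟩⟩ <;> simp [step, Elem.head] at h ⊢ <;>
        simp [← h]
  | succ i ih =>
    rcases l with _ | ⟨x, l⟩
    · simp [step] at h
    · simp only [step, List.cons_append] at h ⊢
      cases h3 : step i e l with
      | none => rw [h3] at h; simp at h
      | some l3 =>
        rw [h3] at h
        simp only [Option.map_some, Option.some.injEq] at h
        rw [ih h3]
        simp [← h]

theorem run_right {w : Word} {l l' : List Bool} (r : List Bool) (h : run w l = some l') :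
    run w (l ++ r) = some (l' ++ r) := by
  induction w generalizing l with
  | nil => simp only [run, Option.some.injEq] at h ⊢; rw [h]
  | cons p w ih =>
    simp only [run] at h ⊢
    cases h3 : step p.1 p.2 l with
    | none => rw [h3] at h; simp at h
    | some l3 =>
      rw [h3, Option.bind_some] at h
      rw [step_right r h3, Option.bind_some]
      exact ih h

/-- The link `D` together with a meridian curve of `C` near the boundary torus of `C`: the circle
`{pt} × S¹`, `pt` a point on the right side of the square `D`, to the right of all other strands. -/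
def addVertical (D : Diagram) : Diagram where
  top := D.top ++ [true]
  word := D.word
  closed := run_right [true] D.closed
  poles := by rw [List.count_append, D.poles]; rfl

theorem run_circ_polePos (l : List Bool) (k : ℕ) (hk : k < l.count false) :
    run (circ (polePos l k)) l = some l := by
  obtain ⟨l1, l2, rfl, rfl⟩ := exists_pole l k hk
  rw [polePos_append]
  exact run_circ l1 l2

/-- The link `D` together with a small circle around the pole number `k` (`k = 0`: the pole `M₁`,
`k = 1`: the pole `M₂`), between the pole and the link, that is, a meridian curve of `M₁` or `M₂`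
near its boundary torus. (It is drawn at the level where the annulus is cut.) -/
def addCircle (k : Fin 2) (D : Diagram) : Diagram where
  top := D.top
  word := circ (polePos D.top k) ++ D.word
  closed := by
    rw [run_app, run_circ_polePos D.top k (by rw [D.poles]; exact k.2)]
    exact D.closed
  poles := D.poles

theorem cls_eq_of_eqv {D D' : Diagram} (h : Relation.EqvGen Step D D') :
    cls D - cls D' ∈ Rels := by
  induction h with
  | rel D D' h => exact Submodule.subset_span (Rel.isotopy D D' h)
  | refl D => simp
  | symm D D' _ ih => rw [← neg_sub]; exact Rels.neg_mem ih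
  | trans D D' D'' _ _ ih1 ih2 =>
    have := Rels.add_mem ih1 ih2
    simpa using this

theorem step_vertical {D D' : Diagram} (h : Step D D') :
    Step (addVertical D) (addVertical D') := by
  cases h with
  | move u a b v h ht hD hD' =>
    exact Step.move _ _ u a b v h (by simp [addVertical, ht]) hD hD'
  | rotate u v hu hD hD' =>
    exact Step.rotate _ _ u v (run_right [true] hu) hD hD'

theorem eqv_circle (k : Fin 2) {D D' : Diagram} (h : Step D D') :
    Relation.EqvGen Step (addCircle k D) (addCircle k D') := by
  cases h with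
  | move u a b v h ht hD hD' =>
    refine Relation.EqvGen.rel _ _ (Step.move _ _ (circ (polePos D.top k) ++ u) a b v h ht ?_ ?_)
    · simp [addCircle, hD]
    · simp [addCircle, hD', ht]
  | rotate u v hu hD hD' =>
    have hk : (k : ℕ) < D.top.count false := by rw [D.poles]; exact k.2
    obtain ⟨hk', w⟩ := slide_word u D.top D'.top k hk hu
    have h1 := D.closed
    rw [hD, run_app, hu, Option.bind_some] at h1
    let E : Diagram := ⟨D.top, u ++ (circ (polePos D'.top k) ++ v), by
      rw [run_app, hu, Option.bind_some, run_app, run_circ_polePos _ _ hk', Option.bind_some, h1],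
      D.poles⟩
    have h2 : Relation.EqvGen Step (addCircle k D) E := by
      refine w.2.2 (addCircle k D) E [] v rfl rfl ?_ ?_
      · simp [addCircle, hD]
      · simp [E]
    refine h2.trans _ _ _ (Relation.EqvGen.rel _ _ (Step.rotate _ _ u
      (circ (polePos D'.top k) ++ v) hu rfl ?_))
    simp [addCircle, hD']

theorem map_Rels_le (f : Diagram → Diagram)
    (h1 : ∀ D D', Step D D' → Relation.EqvGen Step (f D) (f D'))
    (h2 : ∀ D : Diagram, ∃ r : Word, ∀ D' : Diagram, D'.top = D.top →
      (f D').word = r ++ D'.word ∧ (f D').top = (f D).top) :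
    Rels ≤ Rels.comap (Finsupp.lmapDomain F F f) := by
  have hc : ∀ D, Finsupp.lmapDomain F F f (cls D) = cls (f D) := fun D => by
    simp [cls, Finsupp.mapDomain_single]
  conv_lhs => unfold Rels
  rw [Submodule.span_le]
  intro x hx
  simp only [Set.mem_setOf_eq] at hx
  simp only [SetLike.mem_coe, Submodule.mem_comap]
  cases hx with
  | isotopy D D' h =>
    rw [map_sub, hc, hc]
    exact cls_eq_of_eqv (h1 D D' h)
  | kauffman D D₀ D₁ u v i b h₀ h₁ hD hD₀ hD₁ =>
    rw [map_sub, map_add, map_smul, map_smul, hc, hc, hc]
    obtain ⟨r, hr⟩ := h2 D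
    refine Submodule.subset_span (Rel.kauffman (f D) (f D₀) (f D₁) (r ++ u) v i b ?_ ?_ ?_ ?_ ?_)
    · exact (hr D₀ h₀).2
    · exact (hr D₁ h₁).2
    · rw [(hr D rfl).1, hD]; simp
    · rw [(hr D₀ h₀).1, hD₀]; simp
    · rw [(hr D₁ h₁).1, hD₁]; simp
  | circle D D' u v i ht hD hD' =>
    rw [map_sub, map_smul, hc, hc]
    obtain ⟨r, hr⟩ := h2 D
    refine Submodule.subset_span (Rel.circle (f D) (f D') (r ++ u) v i ?_ ?_ ?_)
    · exact (hr D' ht).2
    · rw [(hr D rfl).1, hD]; simp
    · rw [(hr D' ht).1, hD']; simp

/-- the action of the meridian of `C` on the skein module -/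
noncomputable def mC : ((Diagram →₀ RatFunc ℚ) ⧸ Rels) →ₗ[RatFunc ℚ] (Diagram →₀ RatFunc ℚ) ⧸ Rels :=
  Rels.mapQ Rels (Finsupp.lmapDomain (RatFunc ℚ) (RatFunc ℚ) addVertical)
    (map_Rels_le addVertical (fun _ _ h => Relation.EqvGen.rel _ _ (step_vertical h))
      (fun D => ⟨[], fun D' h => ⟨rfl, by simp [addVertical, h]⟩⟩))

/-- the action of the meridian of `M₁` (`k = 0`) or of `M₂` (`k = 1`) on the skein module -/
noncomputable def mM (k : Fin 2) :
    ((Diagram →₀ RatFunc ℚ) ⧸ Rels) →ₗ[RatFunc ℚ] (Diagram →₀ RatFunc ℚ) ⧸ Rels :=
  Rels.mapQ Rels (Finsupp.lmapDomain (RatFunc ℚ) (RatFunc ℚ) (addCircle k))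
    (map_Rels_le (addCircle k) (fun _ _ h => eqv_circle k h)
      (fun D => ⟨circ (polePos D.top k), fun D' h => ⟨by simp [addCircle, h], h⟩⟩))

theorem mC_cls (D : Diagram) :
    mC (Submodule.Quotient.mk (cls D)) = Submodule.Quotient.mk (cls (addVertical D)) := by
  rw [mC, Submodule.mapQ_apply]
  simp [cls, Finsupp.mapDomain_single]

theorem mM_cls (k : Fin 2) (D : Diagram) :
    mM k (Submodule.Quotient.mk (cls D)) = Submodule.Quotient.mk (cls (addCircle k D)) := by
  rw [mM, Submodule.mapQ_apply]
  simp [cls, Finsupp.mapDomain_single]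

end Pool.Agent.P8H80.SK
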