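import Pool.Agent.P8H80.SK.Func
import Pool.Agent.P8H80.SK.Merid

/-!
# The functional and the meridians
-/

set_option autoImplicit false
set_option linter.unusedSectionVars false
set_option linter.unusedSimpArgs false
set_option linter.unusedTactic false
set_option linter.unreachableTactic false

namespace Pool.Agent.P8H80.SK

section

variable {K : Type} [Field K] [Par K]

/-- put a strand on the right -/
noncomputable def snoc (c : Cell) : V K →ₗ[K] V K := Finsupp.lmapDomain K K (fun y => y ++ [c])

@[simp] theorem snoc_bs (c : Cell) (x : List Cell) : snoc c (bs K x) = bs K (x ++ [c]) := by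
  simp [snoc, bs, Finsupp.lmapDomain_apply, Finsupp.mapDomain_single]

theorem snoc_cons (c d : Cell) (v : V K) : snoc c (cons d v) = cons d (snoc c v) := by
  have : (snoc c : V K →ₗ[K] V K) ∘ₗ cons d = cons d ∘ₗ snoc c := by
    apply bs_ext
    intro x
    simp
  exact LinearMap.congr_fun this v

theorem snoc_apply (c : Cell) (v : V K) (x : List Cell) : snoc c v (x ++ [c]) = v x := by
  rw [snoc, Finsupp.lmapDomain_apply]
  exact Finsupp.mapDomain_apply (fun a b h => by simpa using h) v x

theorem act_snoc (i : ℕ) (e : Elem) (c : Cell) (x : List Cell) (l' : List Bool)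
    (h : step i e (kinds x) = some l') : (act i e (x ++ [c]) : V K) = snoc c (act i e x) := by
  induction i generalizing x l' with
  | zero =>
    simp only [act]
    cases e with
    | cup => simp [hd]
    | cap =>
      rcases x with _ | ⟨(_ | _) | j, _ | ⟨(_ | _) | j', x⟩⟩ <;> simp [step, Elem.head] at h <;>
        simp [hd]
    | cross b =>
      rcases x with _ | ⟨(_ | _) | j, _ | ⟨(_ | _) | j', x⟩⟩ <;> simp [step, Elem.head] at h
      · simp [hd]
      · simp [hd]
      · cases b <;> simp [hd]
      · simp [hd]
      · simp [hd]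
      · cases b <;> rcases j' with _ | j' <;> simp [hd]
      · cases b <;> simp [hd]
      · cases b <;> rcases j with _ | j <;> simp [hd]
  | succ i ih =>
    cases x with
    | nil => simp [step] at h
    | cons d x =>
      simp only [kinds_cons, step] at h
      cases h3 : step i e (kinds x) with
      | none => rw [h3] at h; simp at h
      | some l3 =>
        simp only [List.cons_append, act]
        rw [ih x l3 h3, snoc_cons]

theorem T1_snoc {i : ℕ} {e : Elem} {l l' : List Bool} {w : ℤ} (c : Cell)
    (h : step i e l = some l') {v : V K} (hv : v ∈ Sup K l w) :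
    T1 K i e (snoc c v) = snoc c (T1 K i e v) := by
  refine eq_on_Sup (f := T1 K i e ∘ₗ snoc c) (f' := snoc c ∘ₗ T1 K i e) (fun x hx => ?_) hv
  simp only [LinearMap.comp_apply, snoc_bs, T1_bs]
  exact act_snoc i e c x l' (by rw [hx]; exact h)

theorem T_snoc {u : Word} {l l' : List Bool} {w : ℤ} (c : Cell)
    (h : run u l = some l') {v : V K} (hv : v ∈ Sup K l w) :
    T K u (snoc c v) = snoc c (T K u v) := by
  induction u generalizing l v with
  | nil => rfl
  | cons p u ih =>
    obtain ⟨i, e⟩ := p
    simp only [run] at h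
    cases h3 : step i e l with
    | none => rw [h3] at h; simp at h
    | some l3 =>
      rw [h3] at h
      rw [T_cons, T_cons, T1_snoc c h3 hv]
      exact ih h (T1_mem_Sup h3 hv)

theorem wt_snoc (x : List Cell) (c : Cell) : wt (x ++ [c]) = wt x + wtc c := by
  induction x with
  | nil => simp
  | cons d x ih => simp [ih, add_assoc]

theorem kinds_snoc (x : List Cell) (c : Cell) : kinds (x ++ [c]) = kinds x ++ [kind c] := by
  simp [kinds]

theorem St_snoc (l : List Bool) (w : ℤ) :
    St (l ++ [true]) w = (St l (w - 1)).map ⟨fun x => x ++ [.inl true], fun a b h => by simpa using h⟩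
      ∪ (St l (w + 1)).map ⟨fun x => x ++ [.inl false], fun a b h => by simpa using h⟩ := by
  ext x
  simp only [mem_St, Finset.mem_union, Finset.mem_map, Function.Embedding.coeFn_mk]
  constructor
  · rintro ⟨h1, h2⟩
    rcases List.eq_nil_or_concat x with rfl | ⟨y, c, rfl⟩
    · simp at h1
    · rw [List.concat_eq_append, kinds_snoc] at h1
      rw [List.concat_eq_append, wt_snoc] at h2
      have h3 := List.append_inj' h1 rfl
      rcases c with (_ | _) | j
      · right
        exact ⟨y, ⟨h3.1, by simp at h2; omega⟩, by simp⟩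
      · left
        exact ⟨y, ⟨h3.1, by simp at h2; omega⟩, by simp⟩
      · simp at h3
  · rintro (⟨y, ⟨h1, h2⟩, rfl⟩ | ⟨y, ⟨h1, h2⟩, rfl⟩)
    · rw [kinds_snoc, wt_snoc, h1, h2]; simp
    · rw [kinds_snoc, wt_snoc, h1, h2]; simp

theorem psi_vertical (D : Diagram) (w : ℤ) :
    psi K (addVertical D) w = psi K D (w - 1) + psi K D (w + 1) := by
  unfold psi tr
  simp only [addVertical]
  rw [St_snoc, Finset.sum_union, Finset.sum_map, Finset.sum_map]
  · congr 1
    · refine Finset.sum_congr rfl fun x hx => ?_
      rw [mem_St] at hx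
      simp only [Function.Embedding.coeFn_mk]
      rw [← snoc_bs, T_snoc _ D.closed (bs_mem_Sup x _ _ hx.1 hx.2), snoc_apply]
    · refine Finset.sum_congr rfl fun x hx => ?_
      rw [mem_St] at hx
      simp only [Function.Embedding.coeFn_mk]
      rw [← snoc_bs, T_snoc _ D.closed (bs_mem_Sup x _ _ hx.1 hx.2), snoc_apply]
  · rw [Finset.disjoint_left]
    intro x h1 h2
    simp only [Finset.mem_map, Function.Embedding.coeFn_mk] at h1 h2
    obtain ⟨y, _, rfl⟩ := h1
    obtain ⟨z, _, h3⟩ := h2
    simp at h3

theorem circ_bs0 (j : ℕ) (x : List Cell) :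
    T K (circ 0) (bs K (.inr j :: x)) = (-(pa K) ^ 2 - ((pa K)⁻¹) ^ 2) • bs K (.inr j :: x) := by
  have h := pa_ne (K := K)
  unfold circ
  rcases j with _ | j
  · simp only [T_cons, T_nil, T1_zero_bs, T1_one_bs, hd, map_add, map_smul, cons_bs, map_zero,
      smul_zero, add_zero, zero_add, Bool.not_true, Bool.not_false, pb, smul_add, pd_zero, pd_succ,
      kk_zero, kk_succ, gg]
    match_scalars <;> field_simp <;> ring
  · have hk := kk_ne (K := K) j
    simp only [T_cons, T_nil, T1_zero_bs, T1_one_bs, hd, map_add, map_smul, cons_bs, map_zero,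
      smul_zero, add_zero, zero_add, Bool.not_true, Bool.not_false, pb, smul_add, pd_zero, pd_succ,
      kk_zero, kk_succ, gg]
    match_scalars <;> field_simp <;> ring

theorem circ_bs (x : List Cell) (l1 l2 : List Bool) (h : kinds x = l1 ++ false :: l2) :
    T K (circ l1.length) (bs K x) = (-(pa K) ^ 2 - ((pa K)⁻¹) ^ 2) • bs K x := by
  induction l1 generalizing x with
  | nil =>
    rcases x with _ | ⟨(_ | _) | j, x⟩
    · simp at h
    · simp at h
    · simp at h
    · exact circ_bs0 j x
  | cons b l1 ih =>
    rcases x with _ | ⟨c, x⟩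
    · simp at h
    · simp only [kinds_cons, List.cons_append, List.cons.injEq] at h
      have h1 : circ (b :: l1).length = shift (circ l1.length) := rfl
      rw [h1, ← cons_bs, T_shift, ih x h.2]
      simp

theorem psi_circle_pole (k : Fin 2) (D : Diagram) :
    psi K (addCircle k D) = (-(pa K) ^ 2 - ((pa K)⁻¹) ^ 2) • psi K D := by
  funext w
  simp only [Pi.smul_apply, smul_eq_mul]
  unfold psi
  simp only [addCircle]
  rw [← tr_smul]
  apply tr_congr
  intro v hv
  rw [T_append]
  obtain ⟨l1, l2, h1, h2⟩ := exists_pole D.top k (by rw [D.poles]; exact k.2)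
  have h3 : polePos D.top k = l1.length := by rw [h1, ← h2, polePos_append]
  rw [h3]
  have h4 := eq_on_Sup (f := T K (circ l1.length))
    (f' := (-(pa K) ^ 2 - ((pa K)⁻¹) ^ 2) • LinearMap.id)
    (fun x hx => by
      simp only [LinearMap.smul_apply, LinearMap.id_apply]
      exact circ_bs x l1 l2 (by rw [hx, h1])) hv
  rw [h4]
  simp

end

/-- the action of the meridian of `C` on functions -/
noncomputable def H : (ℤ → F) →ₗ[F] (ℤ → F) where
  toFun f := fun w => f (w - 1) + f (w + 1)
  map_add' f g := by funext w; simp; ring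
  map_smul' c f := by funext w; simp; ring

theorem Skein_ext {M : Type*} [AddCommGroup M] [Module F M] {f f' : Skein →ₗ[F] M}
    (h : ∀ D : Diagram, f (Submodule.Quotient.mk (cls D)) = f' (Submodule.Quotient.mk (cls D))) :
    f = f' := by
  apply Submodule.linearMap_qext
  ext D
  exact h D

theorem Psi_mC (z : Skein) : Psi (mC z) = H (Psi z) := by
  have : Psi ∘ₗ mC = H ∘ₗ Psi := by
    apply Skein_ext
    intro D
    simp only [LinearMap.comp_apply, mC_cls, Psi_cls]
    funext w
    exact psi_vertical D w
  exact LinearMap.congr_fun this z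

theorem Psi_mM (k : Fin 2) (z : Skein) :
    Psi (mM k z) = (-A ^ 2 - (A⁻¹) ^ 2) • Psi z := by
  have : Psi ∘ₗ mM k = (-A ^ 2 - (A⁻¹) ^ 2) • Psi := by
    apply Skein_ext
    intro D
    simp only [LinearMap.comp_apply, LinearMap.smul_apply, mM_cls, Psi_cls]
    exact psi_circle_pole k D
  exact LinearMap.congr_fun this z

end Pool.Agent.P8H80.SK
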