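import Pool.Agent.P8H80.SK.Rep

/-!
# Local moves
-/

set_option autoImplicit false
set_option linter.unusedSimpArgs false
set_option linter.unusedVariables false

namespace Pool.Agent.P8H80.SK

variable {K : Type} [Field K] [Par K]

theorem T1_zero_bs (e : Elem) (x : List Cell) : T1 K 0 e (bs K x) = hd e x := T1_bs 0 e x
theorem T1_one_bs (e : Elem) (c : Cell) (x : List Cell) :
    T1 K 1 e (bs K (c :: x)) = cons c (hd e x) := by rw [T1_succ_bs, T1_zero_bs]
theorem T1_two_bs (e : Elem) (c d : Cell) (x : List Cell) :
    T1 K 2 e (bs K (c :: d :: x)) = cons c (cons d (hd e x)) := by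
  rw [T1_succ_bs, T1_succ_bs, T1_zero_bs]
theorem cons_pd (c : Cell) (j : ℕ) (f : ℕ → V K) :
    cons c (pd j f) = pd j (fun i => cons c (f i)) := by
  cases j <;> simp

theorem good_zig : Good K [(0, .cup), (1, .cap)] [] := by
  intro x l' h1 _
  rcases x with _ | ⟨(_ | _) | j, x⟩ 
  · simp [run, step, Elem.head] at h1
  · simp only [T_cons, T_nil, T1_zero_bs, T1_one_bs, hd, map_add, map_smul, cons_bs, map_zero,
      smul_zero, add_zero, zero_add]
    have := pa_ne (K := K)
    match_scalars
    field_simp
  · simp only [T_cons, T_nil, T1_zero_bs, T1_one_bs, hd, map_add, map_smul, cons_bs, map_zero,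
      smul_zero, add_zero, zero_add]
  · simp [run, step, Elem.head] at h1

theorem good_zag : Good K [(1, .cup), (0, .cap)] [] := by
  intro x l' h1 _
  rcases x with _ | ⟨(_ | _) | j, x⟩ 
  · simp [run, step, Elem.head] at h1
  · simp only [T_cons, T_nil, T1_zero_bs, T1_one_bs, hd, map_add, map_smul, cons_bs, map_zero,
      smul_zero, add_zero, zero_add]
  · simp only [T_cons, T_nil, T1_zero_bs, T1_one_bs, hd, map_add, map_smul, cons_bs, map_zero,
      smul_zero, add_zero, zero_add]
    have := pa_ne (K := K)
    match_scalars
    field_simp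
  · simp [run, step, Elem.head] at h1

theorem good_slideCup (b : Bool) :
    Good K [(0, .cup), (1, .cross b)] [(1, .cup), (0, .cross (!b))] := by
  intro x l' h1 _
  have h := pa_ne (K := K)
  rcases x with _ | ⟨(_ | _) | j, x⟩ 
  · simp [run, step, Elem.head] at h1
  · cases b <;>
    simp only [T_cons, T_nil, T1_zero_bs, T1_one_bs, hd, map_add, map_smul, cons_bs, map_zero,
      smul_zero, add_zero, zero_add, Bool.not_true, Bool.not_false, pb] <;>
    match_scalars <;> field_simp <;> ring
  · cases b <;>
    simp only [T_cons, T_nil, T1_zero_bs, T1_one_bs, hd, map_add, map_smul, cons_bs, map_zero,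
      smul_zero, add_zero, zero_add, Bool.not_true, Bool.not_false, pb] <;>
    match_scalars <;> field_simp <;> ring
  · cases b <;>
    simp only [T_cons, T_nil, T1_zero_bs, T1_one_bs, hd, map_add, map_smul, cons_bs, map_zero,
      smul_zero, add_zero, zero_add, Bool.not_true, Bool.not_false, pb, cons_pd] <;>
    match_scalars <;> field_simp <;> ring

theorem r2_ss (b s t : Bool) (x : List Cell) :
    T K [(0, .cross b), (0, .cross (!b))] (bs K (.inl s :: .inl t :: x)) =
      bs K (.inl s :: .inl t :: x) := by
  have h := pa_ne (K := K)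
  cases b <;> cases s <;> cases t <;>
    simp only [T_cons, T_nil, T1_zero_bs, T1_one_bs, hd, map_add, map_smul, cons_bs, map_zero,
      smul_zero, add_zero, zero_add, Bool.not_true, Bool.not_false, pb, smul_add] <;>
    match_scalars <;> field_simp <;> ring

theorem r2_ps (b t : Bool) (j : ℕ) (x : List Cell) :
    T K [(0, .cross b), (0, .cross (!b))] (bs K (.inr j :: .inl t :: x)) =
      bs K (.inr j :: .inl t :: x) := by
  have h := pa_ne (K := K)
  rcases j with _ | j
  · cases b <;> cases t <;>
      simp only [T_cons, T_nil, T1_zero_bs, T1_one_bs, hd, map_add, map_smul, cons_bs, map_zero,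
        smul_zero, add_zero, zero_add, Bool.not_true, Bool.not_false, pb, smul_add, pd_zero, pd_succ,
        kk_zero, kk_succ, gg] <;>
      match_scalars <;> field_simp <;> ring
  · have hk := kk_ne (K := K) j
    cases b <;> cases t <;>
      simp only [T_cons, T_nil, T1_zero_bs, T1_one_bs, hd, map_add, map_smul, cons_bs, map_zero,
        smul_zero, add_zero, zero_add, Bool.not_true, Bool.not_false, pb, smul_add, pd_zero, pd_succ,
        kk_zero, kk_succ, gg] <;>
      match_scalars <;> field_simp <;> ring

theorem r2_sp (b t : Bool) (j : ℕ) (x : List Cell) :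
    T K [(0, .cross b), (0, .cross (!b))] (bs K (.inl t :: .inr j :: x)) =
      bs K (.inl t :: .inr j :: x) := by
  have h := pa_ne (K := K)
  rcases j with _ | j
  · cases b <;> cases t <;>
      simp only [T_cons, T_nil, T1_zero_bs, T1_one_bs, hd, map_add, map_smul, cons_bs, map_zero,
        smul_zero, add_zero, zero_add, Bool.not_true, Bool.not_false, pb, smul_add, pd_zero, pd_succ,
        kk_zero, kk_succ, gg] <;>
      match_scalars <;> field_simp <;> ring
  · have hk := kk_ne (K := K) j
    cases b <;> cases t <;>
      simp only [T_cons, T_nil, T1_zero_bs, T1_one_bs, hd, map_add, map_smul, cons_bs, map_zero,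
        smul_zero, add_zero, zero_add, Bool.not_true, Bool.not_false, pb, smul_add, pd_zero, pd_succ,
        kk_zero, kk_succ, gg] <;>
      match_scalars <;> field_simp <;> ring

theorem good_r2 (b : Bool) : Good K [(0, .cross b), (0, .cross (!b))] [] := by
  intro x l' h1 _
  rcases x with _ | ⟨s | j, _ | ⟨t | j', x⟩⟩
  · simp [run, step, Elem.head] at h1
  · simp [run, step, Elem.head] at h1
  · exact r2_ss b s t x
  · exact r2_sp b s j' x
  · simp [run, step, Elem.head] at h1
  · exact r2_ps b t j x
  · simp [run, step, Elem.head] at h1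

theorem slideCap_sss (b s t u : Bool) (x : List Cell) :
    T K [(1, .cross b), (0, .cap)] (bs K (.inl s :: .inl t :: .inl u :: x)) =
      T K [(0, .cross (!b)), (1, .cap)] (bs K (.inl s :: .inl t :: .inl u :: x)) := by
  have h := pa_ne (K := K)
  cases b <;> cases s <;> cases t <;> cases u <;>
    simp only [T_cons, T_nil, T1_zero_bs, T1_one_bs, hd, map_add, map_smul, cons_bs, map_zero,
      smul_zero, add_zero, zero_add, Bool.not_true, Bool.not_false, pb, smul_add] <;>
    match_scalars <;> field_simp <;> ring

theorem slideCap_sps (b s u : Bool) (j : ℕ) (x : List Cell) :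
    T K [(1, .cross b), (0, .cap)] (bs K (.inl s :: .inr j :: .inl u :: x)) =
      T K [(0, .cross (!b)), (1, .cap)] (bs K (.inl s :: .inr j :: .inl u :: x)) := by
  have h := pa_ne (K := K)
  rcases j with _ | j
  · cases b <;> cases s <;> cases u <;>
      simp only [T_cons, T_nil, T1_zero_bs, T1_one_bs, hd, map_add, map_smul, cons_bs, map_zero,
        smul_zero, add_zero, zero_add, Bool.not_true, Bool.not_false, pb, smul_add, pd_zero, pd_succ,
        kk_zero, kk_succ, gg] <;>
      match_scalars <;> field_simp <;> ring
  · have hk := kk_ne (K := K) j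
    cases b <;> cases s <;> cases u <;>
      simp only [T_cons, T_nil, T1_zero_bs, T1_one_bs, hd, map_add, map_smul, cons_bs, map_zero,
        smul_zero, add_zero, zero_add, Bool.not_true, Bool.not_false, pb, smul_add, pd_zero, pd_succ,
        kk_zero, kk_succ, gg] <;>
      match_scalars <;> field_simp <;> ring

theorem good_slideCap (b : Bool) :
    Good K [(1, .cross b), (0, .cap)] [(0, .cross (!b)), (1, .cap)] := by
  intro x l' h1 _
  rcases x with _ | ⟨s | j, _ | ⟨t | j', _ | ⟨u | j'', x⟩⟩⟩
  · simp [run, step, Elem.head] at h1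
  · simp [run, step, Elem.head] at h1
  · simp [run, step, Elem.head] at h1
  · exact slideCap_sss b s t u x
  · simp [run, step, Elem.head] at h1
  · simp [run, step, Elem.head] at h1
  · exact slideCap_sps b s u j' x
  · simp [run, step, Elem.head] at h1
  · simp [run, step, Elem.head] at h1
  · simp [run, step, Elem.head] at h1
  · simp [run, step, Elem.head] at h1
  · simp [run, step, Elem.head] at h1
  · simp [run, step, Elem.head] at h1
  · simp [run, step, Elem.head] at h1
  · simp [run, step, Elem.head] at h1

theorem good_r1 (b : Bool) : Good K [(1, .cup), (0, .cross b), (1, .cap)]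
    [(0, .cup), (1, .cross b), (0, .cap)] := by
  intro x l' h1 _
  have h := pa_ne (K := K)
  rcases x with _ | ⟨(_ | _) | j, x⟩ 
  · simp [run, step, Elem.head] at h1
  · cases b <;>
    simp only [T_cons, T_nil, T1_zero_bs, T1_one_bs, hd, map_add, map_smul, cons_bs, map_zero,
      smul_zero, add_zero, zero_add, Bool.not_true, Bool.not_false, pb, smul_add] <;>
    match_scalars <;> field_simp <;> ring
  · cases b <;>
    simp only [T_cons, T_nil, T1_zero_bs, T1_one_bs, hd, map_add, map_smul, cons_bs, map_zero,
      smul_zero, add_zero, zero_add, Bool.not_true, Bool.not_false, pb, smul_add] <;>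
    match_scalars <;> field_simp <;> ring
  · simp [run, step, Elem.head] at h1

end Pool.Agent.P8H80.SK
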