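import Pool.Agent.P8H80.SK.Moves

/-!
# The third Reidemeister move
-/

set_option autoImplicit false
set_option linter.unusedSimpArgs false
set_option linter.unusedVariables false
set_option linter.unusedTactic false
set_option linter.unreachableTactic false

namespace Pool.Agent.P8H80.SK

variable {K : Type} [Field K] [Par K]

theorem r3_sps (a b c s t : Bool) (j : ℕ) (hc : a = c → b = a) (x : List Cell) :
    T K [(0, .cross a), (1, .cross b), (0, .cross c)] (bs K (.inl s :: .inr j :: .inl t :: x)) =
      T K [(1, .cross c), (0, .cross b), (1, .cross a)]
        (bs K (.inl s :: .inr j :: .inl t :: x)) := by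
  have h := pa_ne (K := K)
  rcases j with _ | _ | j
  · cases a <;> cases b <;> cases c <;> first | (exfalso; simp at hc; done) |
      (cases s <;> cases t <;>
      simp only [T_cons, T_nil, T1_zero_bs, T1_one_bs, hd, map_add, map_smul, cons_bs, map_zero,
        smul_zero, add_zero, zero_add, Bool.not_true, Bool.not_false, pb, smul_add, pd_zero,
        pd_succ, kk_zero, kk_succ, gg, one_mul] <;>
      match_scalars <;> field_simp <;> ring)
  · cases a <;> cases b <;> cases c <;> first | (exfalso; simp at hc; done) |
      (cases s <;> cases t <;>
      simp only [T_cons, T_nil, T1_zero_bs, T1_one_bs, hd, map_add, map_smul, cons_bs, map_zero,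
        smul_zero, add_zero, zero_add, Bool.not_true, Bool.not_false, pb, smul_add, pd_zero,
        pd_succ, kk_zero, kk_succ, gg, one_mul] <;>
      match_scalars <;> field_simp <;> ring)
  · have hk := kk_ne (K := K) j
    cases a <;> cases b <;> cases c <;> first | (exfalso; simp at hc; done) |
      (cases s <;> cases t <;>
      simp only [T_cons, T_nil, T1_zero_bs, T1_one_bs, hd, map_add, map_smul, cons_bs, map_zero,
        smul_zero, add_zero, zero_add, Bool.not_true, Bool.not_false, pb, smul_add, pd_zero,
        pd_succ, kk_zero, kk_succ, gg] <;>
      match_scalars <;> field_simp <;> ring)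

theorem r3_ssp (a b c s t : Bool) (j : ℕ) (hc : a = c → b = a) (x : List Cell) :
    T K [(0, .cross a), (1, .cross b), (0, .cross c)] (bs K (.inl s :: .inl t :: .inr j :: x)) =
      T K [(1, .cross c), (0, .cross b), (1, .cross a)]
        (bs K (.inl s :: .inl t :: .inr j :: x)) := by
  have h := pa_ne (K := K)
  rcases j with _ | _ | j
  · cases a <;> cases b <;> cases c <;> first | (exfalso; simp at hc; done) |
      (cases s <;> cases t <;>
      simp only [T_cons, T_nil, T1_zero_bs, T1_one_bs, hd, map_add, map_smul, cons_bs, map_zero,
        smul_zero, add_zero, zero_add, Bool.not_true, Bool.not_false, pb, smul_add, pd_zero,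
        pd_succ, kk_zero, kk_succ, gg, one_mul] <;>
      match_scalars <;> field_simp <;> ring)
  · cases a <;> cases b <;> cases c <;> first | (exfalso; simp at hc; done) |
      (cases s <;> cases t <;>
      simp only [T_cons, T_nil, T1_zero_bs, T1_one_bs, hd, map_add, map_smul, cons_bs, map_zero,
        smul_zero, add_zero, zero_add, Bool.not_true, Bool.not_false, pb, smul_add, pd_zero,
        pd_succ, kk_zero, kk_succ, gg, one_mul] <;>
      match_scalars <;> field_simp <;> ring)
  · have hk := kk_ne (K := K) j
    cases a <;> cases b <;> cases c <;> first | (exfalso; simp at hc; done) |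
      (cases s <;> cases t <;>
      simp only [T_cons, T_nil, T1_zero_bs, T1_one_bs, hd, map_add, map_smul, cons_bs, map_zero,
        smul_zero, add_zero, zero_add, Bool.not_true, Bool.not_false, pb, smul_add, pd_zero,
        pd_succ, kk_zero, kk_succ, gg] <;>
      match_scalars <;> field_simp <;> ring)

end Pool.Agent.P8H80.SK
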