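import Pool.Agent.P8H80.SK.Moves3
import Pool.Agent.P8H80.SK.Moves3b

/-!
# All local moves
-/

set_option autoImplicit false
set_option linter.unusedSimpArgs false
set_option linter.unusedVariables false
set_option linter.unusedTactic false
set_option linter.unreachableTactic false

namespace Pool.Agent.P8H80.SK

variable {K : Type} [Field K] [Par K]

theorem good_r3 (a b c : Bool) (hc : a = c → b = a) :
    Good K [(0, .cross a), (1, .cross b), (0, .cross c)]
      [(1, .cross c), (0, .cross b), (1, .cross a)] := by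
  intro x l' h1 _
  rcases x with _ | ⟨s | j, _ | ⟨t | j', _ | ⟨u | j'', x⟩⟩⟩
  · simp [run, step, Elem.head] at h1
  · simp [run, step, Elem.head] at h1
  · simp [run, step, Elem.head] at h1
  · exact r3_sss a b c s t u hc x
  · exact r3_ssp a b c s t j'' hc x
  · simp [run, step, Elem.head] at h1
  · exact r3_sps a b c s u j' hc x
  · simp [run, step, Elem.head] at h1
  · simp [run, step, Elem.head] at h1
  · simp [run, step, Elem.head] at h1
  · exact r3_pss a b c t u j hc x
  · simp [run, step, Elem.head] at h1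
  · simp [run, step, Elem.head] at h1
  · simp [run, step, Elem.head] at h1
  · simp [run, step, Elem.head] at h1

/-- the operators which put two strands on the left -/
noncomputable def two : Submodule K (V K →ₗ[K] V K) :=
  Submodule.span K {f | ∃ c d, f = cons c ∘ₗ cons d}

theorem two_mem (c d : Cell) : (cons c ∘ₗ cons d : V K →ₗ[K] V K) ∈ two (K := K) :=
  Submodule.subset_span ⟨c, d, rfl⟩

theorem two_comm {L : V K →ₗ[K] V K} (hL : L ∈ two (K := K)) (n : ℕ) (f : Elem) (v : V K) :
    T1 K (n + 2) f (L v) = L (T1 K n f v) := by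
  induction hL using Submodule.span_induction with
  | mem L h =>
    obtain ⟨c, d, rfl⟩ := h
    simp only [LinearMap.comp_apply]
    rw [T1_cons, T1_cons]
  | zero => simp
  | add L M _ _ h1 h2 => simp [h1, h2]
  | smul r L _ h => simp [h]

theorem two_cross (b : Bool) (c d : Cell) :
    (T1 K 0 (.cross b) : V K →ₗ[K] V K) ∘ₗ cons c ∘ₗ cons d ∈ two (K := K) := by
  have key : ∀ L : V K →ₗ[K] V K, L ∈ two (K := K) → (∀ y, hd (.cross b) (c :: d :: y) = L (bs K y)) →
      (T1 K 0 (.cross b) : V K →ₗ[K] V K) ∘ₗ cons c ∘ₗ cons d ∈ two (K := K) := by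
    intro L hL h
    have : (T1 K 0 (.cross b) : V K →ₗ[K] V K) ∘ₗ cons c ∘ₗ cons d = L := by
      apply bs_ext
      intro y
      simp only [LinearMap.comp_apply, cons_bs, T1_zero_bs]
      exact h y
    rw [this]
    exact hL
  rcases c with (_ | _) | j <;> rcases d with (_ | _) | j'
  · exact key ((pb K b)⁻¹ • (cons (.inl false) ∘ₗ cons (.inl false)))
      (Submodule.smul_mem _ _ (two_mem _ _)) (fun y => by simp [hd])
  · exact key (pb K b • (cons (.inl true) ∘ₗ cons (.inl false)) +
      ((pb K b)⁻¹ - ((pa K)⁻¹) ^ 2 * pb K b) • (cons (.inl false) ∘ₗ cons (.inl true)))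
      (Submodule.add_mem _ (Submodule.smul_mem _ _ (two_mem _ _))
        (Submodule.smul_mem _ _ (two_mem _ _))) (fun y => by simp [hd])
  · cases b
    · exact key (kk K j' • (cons (.inr j') ∘ₗ cons (.inl false)) +
        (-((pa K)⁻¹) ^ 2) • (cons (.inr (j' + 1)) ∘ₗ cons (.inl true)))
        (Submodule.add_mem _ (Submodule.smul_mem _ _ (two_mem _ _))
          (Submodule.smul_mem _ _ (two_mem _ _))) (fun y => by simp [hd])
    · exact key ((kk K j')⁻¹ • (cons (.inr j') ∘ₗ cons (.inl false)))
        (Submodule.smul_mem _ _ (two_mem _ _)) (fun y => by simp [hd])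
  · exact key (((pb K b)⁻¹ - (pa K) ^ 2 * pb K b) • (cons (.inl true) ∘ₗ cons (.inl false)) +
      pb K b • (cons (.inl false) ∘ₗ cons (.inl true)))
      (Submodule.add_mem _ (Submodule.smul_mem _ _ (two_mem _ _))
        (Submodule.smul_mem _ _ (two_mem _ _))) (fun y => by simp [hd])
  · exact key ((pb K b)⁻¹ • (cons (.inl true) ∘ₗ cons (.inl true)))
      (Submodule.smul_mem _ _ (two_mem _ _)) (fun y => by simp [hd])
  · cases b
    · exact key ((kk K j')⁻¹ • (cons (.inr j') ∘ₗ cons (.inl true)))
        (Submodule.smul_mem _ _ (two_mem _ _)) (fun y => by simp [hd])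
    · rcases j' with _ | j'
      · exact key (kk K 0 • (cons (.inr 0) ∘ₗ cons (.inl true)))
          (Submodule.smul_mem _ _ (two_mem _ _)) (fun y => by simp [hd])
      · exact key (kk K (j' + 1) • (cons (.inr (j' + 1)) ∘ₗ cons (.inl true)) +
          (-(pa K) ^ 2) • gg K (j' + 1) • (cons (.inr j') ∘ₗ cons (.inl false)))
          (Submodule.add_mem _ (Submodule.smul_mem _ _ (two_mem _ _))
            (Submodule.smul_mem _ _ (Submodule.smul_mem _ _ (two_mem _ _))))
          (fun y => by simp [hd])
  · cases b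
    · exact key (kk K j • (cons (.inl false) ∘ₗ cons (.inr j)))
        (Submodule.smul_mem _ _ (two_mem _ _)) (fun y => by simp [hd])
    · exact key ((kk K j)⁻¹ • (cons (.inl false) ∘ₗ cons (.inr j)) +
        (cons (.inl true) ∘ₗ cons (.inr (j + 1))))
        (Submodule.add_mem _ (Submodule.smul_mem _ _ (two_mem _ _)) (two_mem _ _))
        (fun y => by simp [hd])
  · cases b
    · rcases j with _ | j
      · exact key ((kk K 0)⁻¹ • (cons (.inl true) ∘ₗ cons (.inr 0)))
          (Submodule.smul_mem _ _ (two_mem _ _)) (fun y => by simp [hd])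
      · exact key ((kk K (j + 1))⁻¹ • (cons (.inl true) ∘ₗ cons (.inr (j + 1))) +
          gg K (j + 1) • (cons (.inl false) ∘ₗ cons (.inr j)))
          (Submodule.add_mem _ (Submodule.smul_mem _ _ (two_mem _ _))
            (Submodule.smul_mem _ _ (two_mem _ _))) (fun y => by simp [hd])
    · exact key (kk K j • (cons (.inl true) ∘ₗ cons (.inr j)))
        (Submodule.smul_mem _ _ (two_mem _ _)) (fun y => by simp [hd])
  · exact key 0 (Submodule.zero_mem _) (fun y => by cases b <;> simp [hd])

/-- an event on the far left commutes with an event further to the right -/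
theorem T1_zero_comm (e f : Elem) (n : ℕ) (v : V K) :
    T1 K (n + e.tgt) f (T1 K 0 e v) = T1 K 0 e (T1 K (n + e.src) f v) := by
  have : (T1 K (n + e.tgt) f) ∘ₗ (T1 K 0 e) = (T1 K 0 e) ∘ₗ (T1 K (n + e.src) f) := by
    apply bs_ext
    intro x
    simp only [LinearMap.comp_apply, T1_zero_bs]
    cases e with
    | cup =>
      simp only [hd, Elem.src, Elem.tgt, Nat.add_zero, map_add, map_smul, T1_succ_bs]
      have key : (T1 K 0 .cup : V K →ₗ[K] V K) = cons (.inl true) ∘ₗ cons (.inl false) +
          (-((pa K)⁻¹) ^ 2) • cons (.inl false) ∘ₗ cons (.inl true) := by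
        apply bs_ext
        intro y
        simp [T1_zero_bs, hd]
      rw [key]
      simp
    | cap =>
      simp only [Elem.src, Elem.tgt, Nat.add_zero]
      rcases x with _ | ⟨c, _ | ⟨d, x⟩⟩
      · simp [hd, T1_succ_nil]
      · rw [T1_succ_bs, T1_succ_nil]
        simp [hd]
      · rw [T1_succ_bs, T1_succ_bs]
        have key : ∀ c d : Cell, ∃ r : K, (T1 K 0 .cap : V K →ₗ[K] V K) ∘ₗ cons c ∘ₗ cons d =
            r • LinearMap.id := by
          intro c d
          rcases c with (_ | _) | j <;> rcases d with (_ | _) | j'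
          · exact ⟨0, bs_ext fun y => by simp [T1_zero_bs, hd]⟩
          · exact ⟨1, bs_ext fun y => by simp [T1_zero_bs, hd]⟩
          · exact ⟨0, bs_ext fun y => by simp [T1_zero_bs, hd]⟩
          · exact ⟨-(pa K) ^ 2, bs_ext fun y => by simp [T1_zero_bs, hd]⟩
          · exact ⟨0, bs_ext fun y => by simp [T1_zero_bs, hd]⟩
          · exact ⟨0, bs_ext fun y => by simp [T1_zero_bs, hd]⟩
          · exact ⟨0, bs_ext fun y => by simp [T1_zero_bs, hd]⟩
          · exact ⟨0, bs_ext fun y => by simp [T1_zero_bs, hd]⟩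
          · exact ⟨0, bs_ext fun y => by simp [T1_zero_bs, hd]⟩
        obtain ⟨r, hr⟩ := key c d
        have h1 := LinearMap.congr_fun hr (T1 K n f (bs K x))
        have h2 := LinearMap.congr_fun hr (bs K x)
        simp only [LinearMap.comp_apply, LinearMap.smul_apply, LinearMap.id_apply, cons_bs,
          T1_zero_bs] at h1 h2
        rw [h1, h2, map_smul]
    | cross b =>
      simp only [Elem.src, Elem.tgt]
      rcases x with _ | ⟨c, _ | ⟨d, x⟩⟩
      · cases b <;> simp [hd, T1_succ_nil]
      · rw [T1_succ_bs, T1_succ_nil]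
        rcases c with (_ | _) | j <;> cases b <;> simp [hd]
      · rw [T1_succ_bs, T1_succ_bs]
        have h1 := LinearMap.congr_fun (rfl : (T1 K 0 (.cross b) : V K →ₗ[K] V K) ∘ₗ cons c ∘ₗ
          cons d = (T1 K 0 (.cross b) : V K →ₗ[K] V K) ∘ₗ cons c ∘ₗ cons d) (bs K x)
        have h2 := two_comm (two_cross (K := K) b c d) n f (bs K x)
        simp only [LinearMap.comp_apply, cons_bs, T1_zero_bs] at h2
        exact h2
  exact LinearMap.congr_fun this v

end Pool.Agent.P8H80.SK
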