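import Pool.Agent.P8H80.SK.Inter

/-!
# The circle around both poles
-/

set_option autoImplicit false
set_option linter.unusedSectionVars false
set_option linter.unusedSimpArgs false
set_option linter.unusedTactic false
set_option linter.unreachableTactic false

namespace Pool.Agent.P8H80.SK

/-- a circle around both poles -/
def big : Word := [(2, .cup), (1, .cross false), (0, .cross false), (0, .cross false),
  (1, .cross false), (2, .cap)]

/-- `n` parallel circles around both poles -/
def pw : ℕ → Word
  | 0 => []
  | n + 1 => pw n ++ big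

theorem run_big : run big [false, false] = some [false, false] := by decide

theorem run_pw (n : ℕ) : run (pw n) [false, false] = some [false, false] := by
  induction n with
  | zero => rfl
  | succ n ih => rw [pw, run_app, ih, Option.bind_some, run_big]

/-- the link which consists of `n` parallel circles around both poles -/
def Dn (n : ℕ) : Diagram := ⟨[false, false], pw n, run_pw n, by decide⟩

section

variable {K : Type} [Field K] [Par K]

/-- raising operator on states of two poles -/
noncomputable def Ef : List Cell → V K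
  | [.inr a, .inr b] => pd a (fun i => (kk K b)⁻¹ • bs K [.inr i, .inr b]) +
      kk K a • pd b (fun i => bs K [.inr a, .inr i])
  | _ => 0

/-- lowering operator on states of two poles -/
noncomputable def Pf : List Cell → V K
  | [.inr a, .inr b] => kk K a • bs K [.inr a, .inr (b + 1)] +
      (kk K b)⁻¹ • bs K [.inr (a + 1), .inr b]
  | _ => 0

variable (K) in
noncomputable def EE : V K →ₗ[K] V K := Finsupp.linearCombination K Ef
variable (K) in
noncomputable def PP : V K →ₗ[K] V K := Finsupp.linearCombination K Pf

theorem EE_bs (a b : ℕ) : EE K (bs K [.inr a, .inr b]) =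
    pd a (fun i => (kk K b)⁻¹ • bs K [.inr i, .inr b]) +
      kk K a • pd b (fun i => bs K [.inr a, .inr i]) := by
  simp [EE, bs, Ef]

theorem PP_bs (a b : ℕ) : PP K (bs K [.inr a, .inr b]) =
    kk K a • bs K [.inr a, .inr (b + 1)] + (kk K b)⁻¹ • bs K [.inr (a + 1), .inr b] := by
  simp [PP, bs, Pf]

variable (K) in
/-- eigenvalue -/
def cc (d : ℕ) : K := -((kk K d) ^ 2 * ((pa K)⁻¹) ^ 2 + ((kk K d)⁻¹) ^ 2 * (pa K) ^ 2)

theorem kk_add (a b : ℕ) : kk K (a + b) = kk K a * kk K b := by
  simp only [kk]; ring

theorem big_bs1 (a b : ℕ) : T K big (bs K [.inr a, .inr b]) =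
    PP K (EE K (bs K [.inr a, .inr b])) + cc K (a + b) • bs K [.inr a, .inr b] := by
  have h := pa_ne (K := K)
  unfold big
  rw [EE_bs]
  rcases a with _ | a <;> rcases b with _ | b
  · simp only [T_cons, T_nil, T1_zero_bs, T1_one_bs, T1_two_bs, hd, map_add, map_smul, cons_bs,
      map_zero, smul_zero, add_zero, zero_add, Bool.not_true, Bool.not_false, pb, smul_add, pd_zero,
      pd_succ, kk_zero, kk_succ, gg, PP_bs, cc, kk_add]
    match_scalars <;> (try field_simp) <;> (try ring)
  · have hk := kk_ne (K := K) b
    simp only [T_cons, T_nil, T1_zero_bs, T1_one_bs, T1_two_bs, hd, map_add, map_smul, cons_bs,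
      map_zero, smul_zero, add_zero, zero_add, Bool.not_true, Bool.not_false, pb, smul_add, pd_zero,
      pd_succ, kk_zero, kk_succ, gg, PP_bs, cc, kk_add]
    match_scalars <;> field_simp <;> ring
  · have hk := kk_ne (K := K) a
    simp only [T_cons, T_nil, T1_zero_bs, T1_one_bs, T1_two_bs, hd, map_add, map_smul, cons_bs,
      map_zero, smul_zero, add_zero, zero_add, Bool.not_true, Bool.not_false, pb, smul_add, pd_zero,
      pd_succ, kk_zero, kk_succ, gg, PP_bs, cc, kk_add]
    match_scalars <;> field_simp <;> ring
  · have hk := kk_ne (K := K) a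
    have hk' := kk_ne (K := K) b
    simp only [T_cons, T_nil, T1_zero_bs, T1_one_bs, T1_two_bs, hd, map_add, map_smul, cons_bs,
      map_zero, smul_zero, add_zero, zero_add, Bool.not_true, Bool.not_false, pb, smul_add, pd_zero,
      pd_succ, kk_zero, kk_succ, gg, PP_bs, cc]
    have h1 : kk K (a + 1 + (b + 1)) = kk K a * kk K b * (pa K) ^ 4 := by
      have : a + 1 + (b + 1) = (a + b) + 2 := by ring
      rw [this, kk_add, kk_add]
      simp only [kk]
    simp only [h1]
    match_scalars <;> field_simp <;> ring

theorem big_bs2 (a b : ℕ) : T K big (bs K [.inr a, .inr b]) =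
    EE K (PP K (bs K [.inr a, .inr b])) + cc K (a + b + 1) • bs K [.inr a, .inr b] := by
  have h := pa_ne (K := K)
  rw [big_bs1, PP_bs, EE_bs]
  simp only [map_add, map_smul, EE_bs]
  have hk := kk_ne (K := K) a
  have hk' := kk_ne (K := K) b
  have h1 : kk K (a + b + 1) = kk K a * kk K b * (pa K) ^ 2 := by
    rw [kk_succ, kk_add]
  rcases a with _ | a <;> rcases b with _ | b
  · simp only [T_cons, T_nil, T1_zero_bs, T1_one_bs, T1_two_bs, hd, map_add, map_smul, cons_bs,
      map_zero, smul_zero, add_zero, zero_add, Bool.not_true, Bool.not_false, pb, smul_add, pd_zero,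
      pd_succ, kk_zero, kk_succ, gg, PP_bs, cc, h1, kk_add]
    match_scalars <;> (try field_simp) <;> (try ring)
  · have hk := kk_ne (K := K) b
    simp only [T_cons, T_nil, T1_zero_bs, T1_one_bs, T1_two_bs, hd, map_add, map_smul, cons_bs,
      map_zero, smul_zero, add_zero, zero_add, Bool.not_true, Bool.not_false, pb, smul_add, pd_zero,
      pd_succ, kk_zero, kk_succ, gg, PP_bs, cc, h1, kk_add]
    match_scalars <;> (try field_simp) <;> (try ring)
  · have hk := kk_ne (K := K) a
    simp only [T_cons, T_nil, T1_zero_bs, T1_one_bs, T1_two_bs, hd, map_add, map_smul, cons_bs,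
      map_zero, smul_zero, add_zero, zero_add, Bool.not_true, Bool.not_false, pb, smul_add, pd_zero,
      pd_succ, kk_zero, kk_succ, gg, PP_bs, cc, h1, kk_add]
    match_scalars <;> (try field_simp) <;> (try ring)
  · have hk := kk_ne (K := K) a
    have hk' := kk_ne (K := K) b
    simp only [T_cons, T_nil, T1_zero_bs, T1_one_bs, T1_two_bs, hd, map_add, map_smul, cons_bs,
      map_zero, smul_zero, add_zero, zero_add, Bool.not_true, Bool.not_false, pb, smul_add, pd_zero,
      pd_succ, kk_zero, kk_succ, gg, PP_bs, cc, h1, kk_add]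
    have h1 : kk K (a + 1 + (b + 1)) = kk K a * kk K b * (pa K) ^ 4 := by
      have : a + 1 + (b + 1) = (a + b) + 2 := by ring
      rw [this, kk_add, kk_add]
      simp only [kk]
    match_scalars <;> (try field_simp) <;> (try ring)

end

end Pool.Agent.P8H80.SK
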