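import Pool.Agent.P8H80.SK.Power

/-!
# The traces of parallel circles around both poles
-/

set_option autoImplicit false
set_option linter.unusedSectionVars false
set_option linter.unusedSimpArgs false
set_option linter.unusedTactic false
set_option linter.unreachableTactic false

namespace Pool.Agent.P8H80.SK

variable {K : Type} [Field K] [Par K]

/-- the two poles -/
abbrev l0 : List Bool := [false, false]

theorem kinds_l0 {x : List Cell} (h : kinds x = l0) : ∃ a b, x = [.inr a, .inr b] := by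
  rcases x with _ | ⟨(_ | _) | a, _ | ⟨(_ | _) | b, _ | ⟨c, x⟩⟩⟩ <;> simp at h
  exact ⟨a, b, rfl⟩

theorem big_sup1 {d : ℕ} {v : V K} (hv : v ∈ Sup K l0 (-2 * d)) :
    T K big v = PP K (EE K v) + cc K d • v := by
  have h1 := map_mem_of_bs (T K big - (PP K ∘ₗ EE K + cc K d • LinearMap.id)) l0 (-2 * d)
    (⊥ : Submodule K (V K)) (fun x h1 h2 => by
      obtain ⟨a, b, rfl⟩ := kinds_l0 h1
      have h3 : a + b = d := by
        simp only [wt_cons, wtc_r, wt_nil] at h2
        omega
      simp only [LinearMap.sub_apply, LinearMap.add_apply, LinearMap.comp_apply,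
        LinearMap.smul_apply, LinearMap.id_apply, Submodule.mem_bot]
      rw [big_bs1, h3, sub_self]) hv
  simp only [LinearMap.sub_apply, LinearMap.add_apply, LinearMap.comp_apply,
    LinearMap.smul_apply, LinearMap.id_apply, Submodule.mem_bot] at h1
  exact sub_eq_zero.mp h1

theorem big_sup2 {d : ℕ} {v : V K} (hv : v ∈ Sup K l0 (-2 * d)) :
    T K big v = EE K (PP K v) + cc K (d + 1) • v := by
  have h1 := map_mem_of_bs (T K big - (EE K ∘ₗ PP K + cc K (d + 1) • LinearMap.id)) l0 (-2 * d)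
    (⊥ : Submodule K (V K)) (fun x h1 h2 => by
      obtain ⟨a, b, rfl⟩ := kinds_l0 h1
      have h3 : a + b = d := by
        simp only [wt_cons, wtc_r, wt_nil] at h2
        omega
      simp only [LinearMap.sub_apply, LinearMap.add_apply, LinearMap.comp_apply,
        LinearMap.smul_apply, LinearMap.id_apply, Submodule.mem_bot]
      rw [big_bs2, h3, sub_self]) hv
  simp only [LinearMap.sub_apply, LinearMap.add_apply, LinearMap.comp_apply,
    LinearMap.smul_apply, LinearMap.id_apply, Submodule.mem_bot] at h1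
  exact sub_eq_zero.mp h1

theorem EE_sup {d : ℕ} {v : V K} (hv : v ∈ Sup K l0 (-2 * (d + 1 : ℕ))) :
    EE K v ∈ Sup K l0 (-2 * d) := by
  refine map_mem_of_bs (EE K) l0 _ _ (fun x h1 h2 => ?_) hv
  obtain ⟨a, b, rfl⟩ := kinds_l0 h1
  simp only [wt_cons, wtc_r, wt_nil] at h2
  push_cast at h2
  rw [EE_bs]
  rcases a with _ | a <;> rcases b with _ | b
  · simp
  · simp only [pd_zero, pd_succ, zero_add]
    exact Submodule.smul_mem _ _ (Submodule.smul_mem _ _ (bs_mem_Sup _ _ _ rfl (by
      simp; push_cast at h2; omega)))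
  · simp only [pd_zero, pd_succ, smul_zero, add_zero]
    exact Submodule.smul_mem _ _ (Submodule.smul_mem _ _ (bs_mem_Sup _ _ _ rfl (by
      simp; push_cast at h2; omega)))
  · simp only [pd_zero, pd_succ]
    exact Submodule.add_mem _ (Submodule.smul_mem _ _ (Submodule.smul_mem _ _
      (bs_mem_Sup _ _ _ rfl (by simp; push_cast at h2; omega))))
      (Submodule.smul_mem _ _ (Submodule.smul_mem _ _ (bs_mem_Sup _ _ _ rfl (by
      simp; push_cast at h2; omega))))

theorem PP_sup {d : ℕ} {v : V K} (hv : v ∈ Sup K l0 (-2 * d)) :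
    PP K v ∈ Sup K l0 (-2 * (d + 1 : ℕ)) := by
  refine map_mem_of_bs (PP K) l0 _ _ (fun x h1 h2 => ?_) hv
  obtain ⟨a, b, rfl⟩ := kinds_l0 h1
  simp only [wt_cons, wtc_r, wt_nil] at h2
  rw [PP_bs]
  exact Submodule.add_mem _ (Submodule.smul_mem _ _ (bs_mem_Sup _ _ _ rfl (by
      simp; omega))) (Submodule.smul_mem _ _ (bs_mem_Sup _ _ _ rfl (by
      simp; omega)))

theorem T_pw_succ (n : ℕ) (v : V K) : T K (pw (n + 1)) v = T K big (T K (pw n) v) := by
  rw [pw, T_append]

theorem T_pw_comm (n : ℕ) (v : V K) : T K (pw n) (T K big v) = T K big (T K (pw n) v) := by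
  induction n generalizing v with
  | zero => rfl
  | succ n ih => rw [T_pw_succ, T_pw_succ, ih]

theorem EE_big {d : ℕ} {v : V K} (hv : v ∈ Sup K l0 (-2 * (d + 1 : ℕ))) :
    EE K (T K big v) = T K big (EE K v) := by
  rw [big_sup1 hv, big_sup2 (EE_sup hv), map_add, map_smul]

theorem EE_pw (n : ℕ) {d : ℕ} {v : V K} (hv : v ∈ Sup K l0 (-2 * (d + 1 : ℕ))) :
    EE K (T K (pw n) v) = T K (pw n) (EE K v) := by
  induction n generalizing v with
  | zero => rfl
  | succ n ih =>
    rw [T_pw_succ, T_pw_succ, EE_big (T_mem_Sup (run_pw n) hv), ih hv]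

variable (K) in
/-- the traces -/
noncomputable def tau (n d : ℕ) : K := tr l0 (-2 * (d : ℤ)) (T K (pw n))

theorem tau_rec (n d : ℕ) : tau K (n + 1) (d + 1) =
    tau K (n + 1) d - cc K (d + 1) * tau K n d + cc K (d + 1) * tau K n (d + 1) := by
  have h1 : tau K (n + 1) (d + 1) = tr l0 (-2 * ((d + 1 : ℕ) : ℤ))
      (PP K ∘ₗ (EE K ∘ₗ T K (pw n))) + cc K (d + 1) * tau K n (d + 1) := by
    unfold tau
    rw [← tr_smul, ← tr_add]
    apply tr_congr
    intro v hv
    rw [T_pw_succ, big_sup1 (T_mem_Sup (run_pw n) hv)]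
    simp
  have h2 : tr l0 (-2 * ((d + 1 : ℕ) : ℤ)) (PP K ∘ₗ (EE K ∘ₗ T K (pw n))) =
      tr l0 (-2 * (d : ℤ)) ((EE K ∘ₗ T K (pw n)) ∘ₗ PP K) :=
    tr_comm (fun v hv => EE_sup (T_mem_Sup (run_pw n) hv)) (fun v hv => PP_sup hv)
  have h3 : tr l0 (-2 * (d : ℤ)) ((EE K ∘ₗ T K (pw n)) ∘ₗ PP K) + cc K (d + 1) * tau K n d =
      tau K (n + 1) d := by
    unfold tau
    rw [← tr_smul, ← tr_add]
    apply tr_congr
    intro v hv
    simp only [LinearMap.add_apply, LinearMap.comp_apply, LinearMap.smul_apply]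
    rw [EE_pw n (PP_sup hv), T_pw_succ, ← T_pw_comm, big_sup2 hv, map_add, map_smul]
  rw [h1, h2, ← h3]
  ring

theorem St_zero : St l0 (-2 * ((0 : ℕ) : ℤ)) = {[.inr 0, .inr 0]} := by
  ext x
  rw [mem_St, Finset.mem_singleton]
  constructor
  · rintro ⟨h1, h2⟩
    obtain ⟨a, b, rfl⟩ := kinds_l0 h1
    simp only [wt_cons, wtc_r, wt_nil] at h2
    have ha : a = 0 := by omega
    have hb : b = 0 := by omega
    subst ha hb
    rfl
  · rintro rfl
    simp

theorem tau_zero_right (n : ℕ) : tau K n 0 = cc K 0 ^ n := by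
  unfold tau tr
  rw [St_zero, Finset.sum_singleton]
  have : T K (pw n) (bs K [.inr 0, .inr 0]) = cc K 0 ^ n • bs K [.inr 0, .inr 0] := by
    induction n with
    | zero => simp [pw]
    | succ n ih =>
      rw [T_pw_succ, ih, map_smul, big_bs1, EE_bs]
      simp only [pd_zero, smul_zero, add_zero, map_zero, zero_add, smul_smul]
      rw [pow_succ]
  rw [this]
  simp [bs]

theorem St_eq (d : ℕ) : St l0 (-2 * (d : ℤ)) = (Finset.HasAntidiagonal.antidiagonal d).map
    ⟨fun p => [.inr p.1, .inr p.2], fun p q h => by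
      simp only [List.cons.injEq, Sum.inr.injEq, and_true] at h
      exact Prod.ext h.1 h.2⟩ := by
  ext x
  simp only [mem_St, Finset.mem_map, Finset.HasAntidiagonal.mem_antidiagonal, Function.Embedding.coeFn_mk]
  constructor
  · rintro ⟨h1, h2⟩
    obtain ⟨a, b, rfl⟩ := kinds_l0 h1
    simp only [wt_cons, wtc_r, wt_nil] at h2
    exact ⟨(a, b), by simp only; omega, rfl⟩
  · rintro ⟨⟨a, b⟩, h1, rfl⟩
    simp only at h1
    refine ⟨rfl, ?_⟩
    simp only [wt_cons, wtc_r, wt_nil]
    omega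

theorem tau_zero_left (d : ℕ) : tau K 0 d = d + 1 := by
  unfold tau tr
  have h1 : ∀ x ∈ St l0 (-2 * (d : ℤ)), (T K (pw 0) (bs K x)) x = 1 := by
    intro x _
    simp [pw, bs]
  rw [Finset.sum_congr rfl h1, Finset.sum_const, St_eq, Finset.card_map,
    Finset.Nat.card_antidiagonal]
  simp

theorem tau_eq (n d : ℕ) : tau K n d = ∑ i ∈ Finset.range (d + 1), cc K i ^ n := by
  induction n generalizing d with
  | zero => rw [tau_zero_left]; simp
  | succ n ih =>
    induction d with
    | zero => rw [tau_zero_right]; simp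
    | succ d ih2 =>
      rw [tau_rec, ih2, ih, ih]
      rw [Finset.sum_range_succ _ (d + 1), Finset.sum_range_succ _ (d + 1)]
      ring

theorem psi_Dn_even (n d : ℕ) : psi K (Dn n) (-2 * (d : ℤ)) = tau K n d := rfl

theorem psi_Dn_other (n : ℕ) (w : ℤ) (h : ∀ d : ℕ, w ≠ -2 * (d : ℤ)) : psi K (Dn n) w = 0 := by
  unfold psi tr
  have : St (Dn n).top w = ∅ := by
    rw [Finset.eq_empty_iff_forall_notMem]
    intro x hx
    rw [mem_St] at hx
    obtain ⟨a, b, rfl⟩ := kinds_l0 hx.1
    have h2 := hx.2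
    simp only [wt_cons, wtc_r, wt_nil] at h2
    exact h (a + b) (by push_cast; omega)
  rw [this, Finset.sum_empty]

end Pool.Agent.P8H80.SK
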