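import Pool.Agent.P8H80.SK.Defs

/-!
# The operators of the elementary events

A strand of the link carries a sign, a pole carries a natural number (a basis vector of a Verma
module of `U_q(sl_2)`).  Here the field is arbitrary, with a nonzero element `A`.
-/

set_option autoImplicit false

namespace Pool.Agent.P8H80.SK

/-- a field with a nonzero element -/
class Par (K : Type) [Field K] where
  a : K
  ne : a ≠ 0

variable {K : Type} [Field K] [Par K]

/-- the parameter -/
abbrev pa (K : Type) [Field K] [Par K] : K := Par.a

theorem pa_ne : pa K ≠ 0 := Par.ne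

/-- the parameter or its inverse -/
def pb (K : Type) [Field K] [Par K] : Bool → K
  | true => pa K
  | false => (pa K)⁻¹

/-- the state of a strand -/
abbrev Cell : Type := Bool ⊕ ℕ

/-- strand of the link or pole -/
def kind : Cell → Bool
  | .inl _ => true
  | .inr _ => false

/-- the kinds of the strands -/
def kinds (x : List Cell) : List Bool := x.map kind

@[simp] theorem kinds_nil : kinds [] = [] := rfl
@[simp] theorem kinds_cons (c : Cell) (x : List Cell) : kinds (c :: x) = kind c :: kinds x := rfl
@[simp] theorem kind_inl (b : Bool) : kind (.inl b) = true := rfl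
@[simp] theorem kind_inr (j : ℕ) : kind (.inr j) = false := rfl

/-- weight of the state of a strand -/
def wtc : Cell → ℤ
  | .inl true => 1
  | .inl false => -1
  | .inr j => -2 * j

@[simp] theorem wtc_t : wtc (.inl true) = 1 := rfl
@[simp] theorem wtc_f : wtc (.inl false) = -1 := rfl
@[simp] theorem wtc_r (j : ℕ) : wtc (.inr j) = -2 * j := rfl

/-- weight -/
def wt : List Cell → ℤ
  | [] => 0
  | c :: x => wtc c + wt x

@[simp] theorem wt_nil : wt [] = 0 := rfl
@[simp] theorem wt_cons (c : Cell) (x : List Cell) : wt (c :: x) = wtc c + wt x := rfl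

variable (K) in
/-- the space of states -/
abbrev V : Type := List Cell →₀ K

variable (K) in
/-- basis vector -/
noncomputable def bs (x : List Cell) : V K := Finsupp.single x 1

variable (K) in
/-- `A ^ (2 j)` -/
def kk (j : ℕ) : K := (pa K) ^ (2 * j)

variable (K) in
/-- matrix entry of the raising operator -/
def gg (j : ℕ) : K :=
  (kk K j) ^ 2 * ((pa K)⁻¹) ^ 2 + ((kk K j)⁻¹) ^ 2 * (pa K) ^ 2 - (pa K) ^ 2 - ((pa K)⁻¹) ^ 2

theorem kk_ne (j : ℕ) : kk K j ≠ 0 := pow_ne_zero _ pa_ne
@[simp] theorem kk_zero : kk K 0 = 1 := by simp [kk]
theorem kk_succ (j : ℕ) : kk K (j + 1) = kk K j * (pa K) ^ 2 := by simp only [kk]; ring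

/-- the raising operator -/
noncomputable def pd : ℕ → (ℕ → V K) → V K
  | 0, _ => 0
  | j + 1, f => gg K (j + 1) • f j

@[simp] theorem pd_zero (f : ℕ → V K) : pd 0 f = 0 := rfl
@[simp] theorem pd_succ (j : ℕ) (f : ℕ → V K) : pd (j + 1) f = gg K (j + 1) • f j := rfl

/-- the action of an event on the far left -/
noncomputable def hd : Elem → List Cell → V K
  | .cup, x => bs K (.inl true :: .inl false :: x) +
      (-((pa K)⁻¹) ^ 2) • bs K (.inl false :: .inl true :: x)
  | .cap, .inl true :: .inl false :: x => (-(pa K) ^ 2) • bs K x
  | .cap, .inl false :: .inl true :: x => bs K x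
  | .cap, _ => 0
  | .cross b, .inl true :: .inl true :: x => (pb K b)⁻¹ • bs K (.inl true :: .inl true :: x)
  | .cross b, .inl false :: .inl false :: x => (pb K b)⁻¹ • bs K (.inl false :: .inl false :: x)
  | .cross b, .inl true :: .inl false :: x =>
      ((pb K b)⁻¹ - (pa K) ^ 2 * pb K b) • bs K (.inl true :: .inl false :: x) +
        pb K b • bs K (.inl false :: .inl true :: x)
  | .cross b, .inl false :: .inl true :: x =>
      pb K b • bs K (.inl true :: .inl false :: x) +
        ((pb K b)⁻¹ - ((pa K)⁻¹) ^ 2 * pb K b) • bs K (.inl false :: .inl true :: x)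
  | .cross true, .inr j :: .inl true :: x => kk K j • bs K (.inl true :: .inr j :: x)
  | .cross true, .inr j :: .inl false :: x =>
      (kk K j)⁻¹ • bs K (.inl false :: .inr j :: x) + bs K (.inl true :: .inr (j + 1) :: x)
  | .cross false, .inr j :: .inl true :: x =>
      (kk K j)⁻¹ • bs K (.inl true :: .inr j :: x) +
        pd j (fun i => bs K (.inl false :: .inr i :: x))
  | .cross false, .inr j :: .inl false :: x => kk K j • bs K (.inl false :: .inr j :: x)
  | .cross false, .inl true :: .inr j :: x => (kk K j)⁻¹ • bs K (.inr j :: .inl true :: x)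
  | .cross false, .inl false :: .inr j :: x =>
      kk K j • bs K (.inr j :: .inl false :: x) +
        (-((pa K)⁻¹) ^ 2) • bs K (.inr (j + 1) :: .inl true :: x)
  | .cross true, .inl true :: .inr j :: x =>
      kk K j • bs K (.inr j :: .inl true :: x) +
        (-(pa K) ^ 2) • pd j (fun i => bs K (.inr i :: .inl false :: x))
  | .cross true, .inl false :: .inr j :: x => (kk K j)⁻¹ • bs K (.inr j :: .inl false :: x)
  | .cross _, _ => 0

/-- put a strand on the left -/
noncomputable def cons (c : Cell) : V K →ₗ[K] V K := Finsupp.lmapDomain K K (fun y => c :: y)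

@[simp] theorem cons_bs (c : Cell) (x : List Cell) : cons c (bs K x) = bs K (c :: x) := by
  simp [cons, bs, Finsupp.lmapDomain_apply, Finsupp.mapDomain_single]

/-- the action of an event -/
noncomputable def act : ℕ → Elem → List Cell → V K
  | 0, e, x => hd e x
  | _ + 1, _, [] => 0
  | i + 1, e, c :: x => cons c (act i e x)

variable (K) in
/-- the operator of an event -/
noncomputable def T1 (i : ℕ) (e : Elem) : V K →ₗ[K] V K := Finsupp.linearCombination K (act i e)

theorem T1_bs (i : ℕ) (e : Elem) (x : List Cell) : T1 K i e (bs K x) = act i e x := by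
  simp [T1, bs]

theorem bs_ext {M : Type*} [AddCommMonoid M] [Module K M] {f f' : V K →ₗ[K] M}
    (h : ∀ x, f (bs K x) = f' (bs K x)) : f = f' := by
  ext x
  exact h x

theorem T1_cons (i : ℕ) (e : Elem) (c : Cell) (v : V K) :
    T1 K (i + 1) e (cons c v) = cons c (T1 K i e v) := by
  have : (T1 K (i + 1) e) ∘ₗ (cons c) = (cons c) ∘ₗ (T1 K i e) := by
    apply bs_ext
    intro x
    simp only [LinearMap.comp_apply, cons_bs, T1_bs, act]
  exact LinearMap.congr_fun this v

theorem T1_succ_nil (i : ℕ) (e : Elem) : T1 K (i + 1) e (bs K []) = 0 := by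
  rw [T1_bs]; rfl

theorem T1_succ_bs (i : ℕ) (e : Elem) (c : Cell) (x : List Cell) :
    T1 K (i + 1) e (bs K (c :: x)) = cons c (T1 K i e (bs K x)) := by
  rw [← cons_bs, T1_cons]

variable (K) in
/-- the operator of a word -/
noncomputable def T : Word → V K →ₗ[K] V K
  | [] => LinearMap.id
  | p :: w => T w ∘ₗ T1 K p.1 p.2

@[simp] theorem T_nil (v : V K) : T K [] v = v := rfl
@[simp] theorem T_cons (i : ℕ) (e : Elem) (w : Word) (v : V K) :
    T K ((i, e) :: w) v = T K w (T1 K i e v) := rfl

theorem T_append (u w : Word) (v : V K) : T K (u ++ w) v = T K w (T K u v) := by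
  induction u generalizing v with
  | nil => rfl
  | cons p u ih => obtain ⟨i, e⟩ := p; simp [ih]

/-- the word one strand further to the right -/
def shift (w : Word) : Word := w.map (fun p => (p.1 + 1, p.2))

theorem T_shift (w : Word) (c : Cell) (v : V K) :
    T K (shift w) (cons c v) = cons c (T K w v) := by
  induction w generalizing v with
  | nil => rfl
  | cons p w ih =>
    obtain ⟨i, e⟩ := p
    show T K (shift w) (T1 K (i + 1) e (cons c v)) = _
    rw [T1_cons, ih]
    rfl

theorem run_shift (w : Word) (b : Bool) (l : List Bool) :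
    run (shift w) (b :: l) = (run w l).map (b :: ·) := by
  induction w generalizing l with
  | nil => rfl
  | cons p w ih =>
    obtain ⟨i, e⟩ := p
    show (step (i + 1) e (b :: l)).bind (run (shift w)) = _
    simp only [step, run]
    cases h : step i e l with
    | none => rfl
    | some l' => simp [ih]

theorem run_append (u w : Word) (l : List Bool) : run (u ++ w) l = (run u l).bind (run w) := by
  induction u generalizing l with
  | nil => rfl
  | cons p u ih =>
    simp only [List.cons_append, run]
    cases step p.1 p.2 l with
    | none => rfl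
    | some l' => simp [ih]

variable (K) in
/-- the two words have the same operator on states for which they make sense -/
def Good (a b : Word) : Prop :=
  ∀ (x : List Cell) (l' : List Bool), run a (kinds x) = some l' → run b (kinds x) = some l' →
    T K a (bs K x) = T K b (bs K x)

theorem Good.shift {a b : Word} (h : Good K a b) (ha : a ≠ []) : Good K (shift a) (shift b) := by
  intro x l' h1 h2
  cases x with
  | nil =>
    exfalso
    cases a with
    | nil => exact ha rfl
    | cons p a =>
      simp [SK.shift, run, step] at h1
  | cons c x =>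
    rw [kinds_cons, run_shift] at h1 h2
    rw [← cons_bs, T_shift, T_shift]
    cases h3 : run a (kinds x) with
    | none => rw [h3] at h1; simp at h1
    | some l3 =>
      cases h4 : run b (kinds x) with
      | none => rw [h4] at h2; simp at h2
      | some l4 =>
        rw [h3] at h1
        rw [h4] at h2
        simp only [Option.map_some, Option.some.injEq] at h1 h2
        have : l3 = l4 := by
          have := h1.trans h2.symm
          simpa using this
        subst this
        rw [h x l3 h3 h4]

end Pool.Agent.P8H80.SK
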