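import Pool.Agent.P8H80.SK.Rep

/-!
# The strands below the two sides of a move
-/

set_option autoImplicit false
set_option linter.unusedSectionVars false
set_option linter.unusedSimpArgs false

namespace Pool.Agent.P8H80.SK

/-- the two words lead to the same strands -/
def Same (a b : Word) : Prop :=
  ∀ l l1 l2, run a l = some l1 → run b l = some l2 → l1 = l2

theorem Same.shift {a b : Word} (h : Same a b) (ha : a ≠ []) : Same (shift a) (shift b) := by
  intro l l1 l2 h1 h2
  cases l with
  | nil =>
    exfalso
    cases a with
    | nil => exact ha rfl
    | cons p a => simp [SK.shift, run, step] at h1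
  | cons c l =>
    rw [run_shift] at h1 h2
    cases h3 : run a l with
    | none => rw [h3] at h1; simp at h1
    | some l3 =>
      cases h4 : run b l with
      | none => rw [h4] at h2; simp at h2
      | some l4 =>
        rw [h3] at h1
        rw [h4] at h2
        simp only [Option.map_some, Option.some.injEq] at h1 h2
        rw [← h1, ← h2, h l l3 l4 h3 h4]

theorem head_comm (e f : Elem) (n : ℕ) (l : List Bool) :
    (e.head l).bind (step (n + e.tgt) f) = (step (n + e.src) f l).bind e.head := by
  cases e with
  | cup =>
    simp only [Elem.head, Elem.src, Elem.tgt, Option.bind_some, Nat.add_zero]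
    simp only [step]
    cases step n f l <;> simp [Elem.head]
  | cap =>
    simp only [Elem.src, Elem.tgt, Nat.add_zero]
    rcases l with _ | ⟨x, _ | ⟨y, l⟩⟩
    · simp [Elem.head, step]
    · simp [Elem.head, step]
    · simp only [step]
      cases h : step n f l <;> cases x <;> cases y <;> simp [Elem.head, h]
  | cross b =>
    simp only [Elem.src, Elem.tgt]
    rcases l with _ | ⟨x, _ | ⟨y, l⟩⟩
    · simp [Elem.head, step]
    · simp [Elem.head, step]
    · simp only [step]
      cases h : step n f l <;> cases x <;> cases y <;> simp [Elem.head, h, step]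

theorem same_of_move {a b : Word} (h : Move a b) : Same a b := by
  cases h with
  | zig i =>
    induction i with
    | zero =>
      intro l l1 l2 h1 h2
      rcases l with _ | ⟨_ | _, l⟩ <;>
        simp [run, step, Elem.head] at h1 h2 <;> exact h1.symm.trans h2
    | succ i ih => exact Same.shift ih (by simp)
  | zag i =>
    induction i with
    | zero =>
      intro l l1 l2 h1 h2
      rcases l with _ | ⟨_ | _, l⟩ <;>
        simp [run, step, Elem.head] at h1 h2 <;> exact h1.symm.trans h2
    | succ i ih => exact Same.shift ih (by simp)
  | slideCup i b =>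
    induction i with
    | zero =>
      intro l l1 l2 h1 h2
      rcases l with _ | ⟨_ | _, l⟩ <;>
        simp [run, step, Elem.head] at h1 h2 <;> exact h1.symm.trans h2
    | succ i ih => exact Same.shift ih (by simp)
  | slideCap i b =>
    induction i with
    | zero =>
      intro l l1 l2 h1 h2
      rcases l with _ | ⟨_ | _, _ | ⟨_ | _, _ | ⟨_ | _, l⟩⟩⟩ <;>
        simp [run, step, Elem.head] at h1 h2 <;> exact h1.symm.trans h2
    | succ i ih => exact Same.shift ih (by simp)
  | r1 i b =>
    induction i with
    | zero =>
      intro l l1 l2 h1 h2
      rcases l with _ | ⟨_ | _, l⟩ <;>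
        simp [run, step, Elem.head] at h1 h2 <;> exact h1.symm.trans h2
    | succ i ih => exact Same.shift ih (by simp)
  | r2 i b =>
    induction i with
    | zero =>
      intro l l1 l2 h1 h2
      rcases l with _ | ⟨_ | _, _ | ⟨_ | _, l⟩⟩ <;>
        simp [run, step, Elem.head] at h1 h2 <;> exact h1.symm.trans h2
    | succ i ih => exact Same.shift ih (by simp)
  | r3 i a b c hc =>
    induction i with
    | zero =>
      intro l l1 l2 h1 h2
      rcases l with _ | ⟨_ | _, _ | ⟨_ | _, _ | ⟨_ | _, l⟩⟩⟩ <;>
        simp [run, step, Elem.head] at h1 h2 <;> exact h1.symm.trans h2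
    | succ i ih => exact Same.shift ih (by simp)
  | far i j e f hij =>
    induction i generalizing j with
    | zero =>
      intro l l1 l2 h1 h2
      obtain ⟨n, rfl⟩ : ∃ n, j = n + e.src := ⟨j - e.src, by omega⟩
      rw [Nat.add_sub_cancel] at h1
      simp only [run, step, Option.bind_some] at h1 h2
      have h3 := head_comm e f n l
      have h4 : ∀ (o : Option (List Bool)), o.bind some = o := fun o => by cases o <;> rfl
      have h5 : (e.head l).bind (step (n + e.tgt) f) = some l1 := by
        rw [← h1]
        cases e.head l <;> simp [run, h4]
      have h6 : (step (n + e.src) f l).bind e.head = some l2 := by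
        rw [← h2]
        cases step (n + e.src) f l <;> simp [run, h4]
      rw [h3, h6] at h5
      exact (Option.some.inj h5).symm
    | succ i ih =>
      obtain ⟨j, rfl⟩ : ∃ m, j = m + 1 := ⟨j - 1, by omega⟩
      have h1 := Same.shift (ih j (by omega)) (by simp)
      have h2 : j + 1 - e.src + e.tgt = (j - e.src + e.tgt) + 1 := by omega
      rw [h2]
      exact h1

end Pool.Agent.P8H80.SK
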