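import Pool.Agent.P8H80.SK.Defs

/-!
# Isotopies of words

A small circle around a pole can be moved along the pole.
-/

set_option autoImplicit false
set_option linter.unusedSimpArgs false

namespace Pool.Agent.P8H80.SK

/-- the word one strand further to the right -/
def sh (w : Word) : Word := w.map (fun p => (p.1 + 1, p.2))

theorem run_sh (w : Word) (b : Bool) (l : List Bool) :
    run (sh w) (b :: l) = (run w l).map (b :: ·) := by
  induction w generalizing l with
  | nil => rfl
  | cons p w ih =>
    obtain ⟨i, e⟩ := p
    show (step (i + 1) e (b :: l)).bind (run (sh w)) = _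
    simp only [step, run]
    cases h : step i e l with
    | none => rfl
    | some l' => simp [ih]

theorem run_app (u w : Word) (l : List Bool) : run (u ++ w) l = (run u l).bind (run w) := by
  induction u generalizing l with
  | nil => rfl
  | cons p u ih =>
    simp only [List.cons_append, run]
    cases step p.1 p.2 l with
    | none => rfl
    | some l' => simp [ih]

/-- the two words have the same strands below -/
def RunEq (a b : Word) : Prop := ∀ l, run a l = run b l

theorem RunEq.sh {a b : Word} (h : RunEq a b) (ha : a ≠ []) (hb : b ≠ []) :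
    RunEq (sh a) (sh b) := by
  intro l
  cases l with
  | nil =>
    rcases a with _ | ⟨p, a⟩
    · exact absurd rfl ha
    · rcases b with _ | ⟨q, b⟩
      · exact absurd rfl hb
      · simp [SK.sh, run, step]
  | cons c l => rw [run_sh, run_sh, h l]

theorem hd_comm (e f : Elem) (n : ℕ) (l : List Bool) :
    (e.head l).bind (step (n + e.tgt) f) = (step (n + e.src) f l).bind e.head := by
  cases e with
  | cup =>
    simp only [Elem.head, Elem.src, Elem.tgt, Option.bind_some, Nat.add_zero]
    simp only [step]
    cases step n f l <;> simp [Elem.head]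
  | cap =>
    simp only [Elem.src, Elem.tgt, Nat.add_zero]
    rcases l with _ | ⟨x, _ | ⟨y, l⟩⟩
    · simp [Elem.head, step]
    · simp [Elem.head, step]
    · simp only [step]
      cases h : step n f l <;> cases x <;> cases y <;> simp [Elem.head, h]
  | cross b =>
    simp only [Elem.src, Elem.tgt]
    rcases l with _ | ⟨x, _ | ⟨y, l⟩⟩
    · simp [Elem.head, step]
    · simp [Elem.head, step]
    · simp only [step]
      cases h : step n f l <;> cases x <;> cases y <;> simp [Elem.head, h, step]

theorem bind_some' (o : Option (List Bool)) : o.bind some = o := by cases o <;> rfl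

theorem bind_run_nil (o : Option (List Bool)) : o.bind (run []) = o := by cases o <;> rfl

theorem run_two (i j : ℕ) (e f : Elem) (l : List Bool) :
    run [(i, e), (j, f)] l = (step i e l).bind (step j f) := by
  simp only [run]
  cases step i e l with
  | none => rfl
  | some l1 => simp only [Option.bind_some]; exact bind_run_nil _

theorem runEq_far (i j : ℕ) (e f : Elem) (hij : i + e.src ≤ j) :
    RunEq [(i, e), (j - e.src + e.tgt, f)] [(j, f), (i, e)] := by
  induction i generalizing j with
  | zero =>
    intro l
    obtain ⟨n, rfl⟩ : ∃ n, j = n + e.src := ⟨j - e.src, by omega⟩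
    rw [Nat.add_sub_cancel, run_two, run_two]
    exact hd_comm e f n l
  | succ i ih =>
    obtain ⟨j, rfl⟩ : ∃ m, j = m + 1 := ⟨j - 1, by omega⟩
    have h1 := RunEq.sh (ih j (by omega)) (by simp) (by simp)
    have h2 : j + 1 - e.src + e.tgt = (j - e.src + e.tgt) + 1 := by omega
    rw [h2]
    exact h1

theorem runEq_slideCup (i : ℕ) (b : Bool) :
    RunEq [(i, .cup), (i + 1, .cross b)] [(i + 1, .cup), (i, .cross (!b))] := by
  induction i with
  | zero =>
    intro l
    rcases l with _ | ⟨_ | _, l⟩ <;> simp [run, step, Elem.head]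
  | succ i ih => exact RunEq.sh ih (by simp) (by simp)

theorem runEq_slideCap (i : ℕ) (b : Bool) :
    RunEq [(i + 1, .cross b), (i, .cap)] [(i, .cross (!b)), (i + 1, .cap)] := by
  induction i with
  | zero =>
    intro l
    rcases l with _ | ⟨_ | _, _ | ⟨_ | _, _ | ⟨_ | _, l⟩⟩⟩ <;> simp [run, step, Elem.head]
  | succ i ih => exact RunEq.sh ih (by simp) (by simp)

theorem runEq_r1 (i : ℕ) (b : Bool) :
    RunEq [(i + 1, .cup), (i, .cross b), (i + 1, .cap)]
      [(i, .cup), (i + 1, .cross b), (i, .cap)] := by
  induction i with
  | zero =>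
    intro l
    rcases l with _ | ⟨_ | _, l⟩ <;> simp [run, step, Elem.head]
  | succ i ih => exact RunEq.sh ih (by simp) (by simp)

theorem runEq_r3 (i : ℕ) (a b c : Bool) :
    RunEq [(i, .cross a), (i + 1, .cross b), (i, .cross c)]
      [(i + 1, .cross c), (i, .cross b), (i + 1, .cross a)] := by
  induction i with
  | zero =>
    intro l
    rcases l with _ | ⟨_ | _, _ | ⟨_ | _, _ | ⟨_ | _, l⟩⟩⟩ <;> simp [run, step, Elem.head]
  | succ i ih => exact RunEq.sh ih (by simp) (by simp)

/-- the left hand side can be replaced by the right hand side -/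
def RunLe (a b : Word) : Prop := ∀ l l', run a l = some l' → run b l = some l'

theorem RunEq.le {a b : Word} (h : RunEq a b) : RunLe a b := fun l l' h1 => by rw [← h l]; exact h1

theorem RunLe.sh {a b : Word} (h : RunLe a b) (ha : a ≠ []) : RunLe (sh a) (sh b) := by
  intro l l' h1
  cases l with
  | nil =>
    rcases a with _ | ⟨p, a⟩
    · exact absurd rfl ha
    · simp [SK.sh, run, step] at h1
  | cons c l =>
    rw [run_sh] at h1 ⊢
    cases h3 : run a l with
    | none => rw [h3] at h1; simp at h1
    | some l3 => rw [h3] at h1; rw [h l l3 h3]; exact h1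

theorem runLe_zig (i : ℕ) : RunLe [(i, .cup), (i + 1, .cap)] [] := by
  induction i with
  | zero =>
    intro l l' h
    rcases l with _ | ⟨_ | _, l⟩ <;> simp [run, step, Elem.head] at h ⊢
    exact h
  | succ i ih => exact RunLe.sh ih (by simp)

theorem runLe_zag (i : ℕ) : RunLe [(i + 1, .cup), (i, .cap)] [] := by
  induction i with
  | zero =>
    intro l l' h
    rcases l with _ | ⟨_ | _, l⟩ <;> simp [run, step, Elem.head] at h ⊢
    exact h
  | succ i ih => exact RunLe.sh ih (by simp)

theorem runLe_r2 (i : ℕ) (b b' : Bool) : RunLe [(i, .cross b), (i, .cross b')] [] := by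
  induction i with
  | zero =>
    intro l l' h
    rcases l with _ | ⟨_ | _, _ | ⟨_ | _, l⟩⟩ <;> simp [run, step, Elem.head] at h ⊢ <;> exact h
  | succ i ih => exact RunLe.sh ih (by simp)

theorem runLe_of_move {a b : Word} (h : Move a b) : RunLe a b := by
  cases h with
  | zig i => exact runLe_zig i
  | zag i => exact runLe_zag i
  | slideCup i b => exact (runEq_slideCup i b).le
  | slideCap i b => exact (runEq_slideCap i b).le
  | r1 i b => exact (runEq_r1 i b).le
  | r2 i b => exact runLe_r2 i b _
  | r3 i a b c h => exact (runEq_r3 i a b c).le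
  | far i j e f hij => exact (runEq_far i j e f hij).le

/-- the words `w`, `w'` lead from the strands `l` to the strands `l'`, and one can be replaced by
the other in every diagram, up to isotopy -/
def WI (l l' : List Bool) (w w' : Word) : Prop :=
  run w l = some l' ∧ run w' l = some l' ∧
    ∀ (D D' : Diagram) (u v : Word), D'.top = D.top → run u D.top = some l →
      D.word = u ++ w ++ v → D'.word = u ++ w' ++ v → Relation.EqvGen Step D D'

theorem WI.refl {l l' : List Bool} {w : Word} (h : run w l = some l') : WI l l' w w := by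
  refine ⟨h, h, ?_⟩
  intro D D' u v ht _ hD hD'
  have : D = D' := by
    cases D; cases D'
    simp only at ht hD hD'
    subst ht hD hD'
    rfl
  subst this
  exact Relation.EqvGen.refl _

theorem WI.symm {l l' : List Bool} {w w' : Word} (h : WI l l' w w') : WI l l' w' w :=
  ⟨h.2.1, h.1, fun D D' u v ht hu hD hD' =>
    (h.2.2 D' D u v ht.symm (by rw [ht]; exact hu) hD' hD).symm⟩

theorem WI.trans {l l' : List Bool} {w w' w'' : Word} (h : WI l l' w w') (h' : WI l l' w' w'') :
    WI l l' w w'' := by
  refine ⟨h.1, h'.2.1, ?_⟩
  intro D D' u v ht hu hD hD'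
  have h1 := D.closed
  rw [hD, List.append_assoc, run_app, hu, Option.bind_some, run_app, h.1, Option.bind_some] at h1
  let E : Diagram := ⟨D.top, u ++ w' ++ v, by
    rw [List.append_assoc, run_app, hu, Option.bind_some, run_app, h.2.1, Option.bind_some]
    exact h1, D.poles⟩
  exact (h.2.2 D E u v rfl hu hD rfl).trans _ _ _ (h'.2.2 E D' u v ht hu rfl hD')

theorem WI.fwd {l l' : List Bool} (u a b v : Word) (hm : Move a b)
    (h : run (u ++ a ++ v) l = some l') : WI l l' (u ++ a ++ v) (u ++ b ++ v) := by
  have h2 : run (u ++ b ++ v) l = some l' := by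
    rw [List.append_assoc, run_app] at h
    rw [List.append_assoc, run_app]
    cases hu : run u l with
    | none => rw [hu] at h; simp at h
    | some l1 =>
      rw [hu, Option.bind_some, run_app] at h
      rw [Option.bind_some, run_app]
      cases ha : run a l1 with
      | none => rw [ha] at h; simp at h
      | some l2 => rw [ha] at h; rw [runLe_of_move hm l1 l2 ha]; exact h
  refine ⟨h, h2, ?_⟩
  intro D D' u' v' ht _ hD hD'
  refine Relation.EqvGen.rel _ _ (Step.move D D' (u' ++ u) a b (v ++ v') hm ht ?_ ?_)
  · rw [hD]; simp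
  · rw [hD']; simp

theorem WI.bwd {l l' : List Bool} (u a b v : Word) (hm : Move a b) (he : RunEq a b)
    (h : run (u ++ b ++ v) l = some l') : WI l l' (u ++ b ++ v) (u ++ a ++ v) := by
  apply WI.symm
  apply WI.fwd u a b v hm
  rw [List.append_assoc, run_app] at h
  rw [List.append_assoc, run_app]
  cases hu : run u l with
  | none => rw [hu] at h; simp at h
  | some l1 =>
    rw [hu, Option.bind_some, run_app] at h
    rw [Option.bind_some, run_app, he]
    exact h

theorem WI.ctx {l l' l0 l1 : List Bool} {w w' : Word} (h : WI l l' w w') (u v : Word)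
    (hu : run u l0 = some l) (hv : run v l' = some l1) :
    WI l0 l1 (u ++ w ++ v) (u ++ w' ++ v) := by
  refine ⟨?_, ?_, ?_⟩
  · rw [List.append_assoc, run_app, hu, Option.bind_some, run_app, h.1, Option.bind_some, hv]
  · rw [List.append_assoc, run_app, hu, Option.bind_some, run_app, h.2.1, Option.bind_some, hv]
  · intro D D' u' v' ht hu' hD hD'
    refine h.2.2 D D' (u' ++ u) (v ++ v') ht ?_ ?_ ?_
    · rw [run_app, hu', Option.bind_some, hu]
    · rw [hD]; simp
    · rw [hD']; simp

end Pool.Agent.P8H80.SK
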