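import Pool.Agent.P8H80.SK.Slide

/-!
# Moving a small circle along a pole
-/

set_option autoImplicit false
set_option linter.unusedSimpArgs false

namespace Pool.Agent.P8H80.SK

theorem step_pre (l1 m : List Bool) (i : ℕ) (e : Elem) :
    step (l1.length + i) e (l1 ++ m) = (step i e m).map (l1 ++ ·) := by
  induction l1 with
  | nil => simp
  | cons x l1 ih =>
    have : (x :: l1).length + i = (l1.length + i) + 1 := by simp; omega
    rw [this]
    simp only [List.cons_append, step, ih, Option.map_map]
    rfl

theorem step_pre0 (l1 m : List Bool) (e : Elem) :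
    step l1.length e (l1 ++ m) = (e.head m).map (l1 ++ ·) := step_pre l1 m 0 e

theorem run_circ (l1 l2 : List Bool) : run (circ l1.length) (l1 ++ false :: l2) =
    some (l1 ++ false :: l2) := by
  simp [circ, run, step_pre, step_pre0, step, Elem.head]

theorem far_cap (p i : ℕ) (e : Elem) (h : p ≤ i) :
    Move [(p, .cap), (i, e)] [(i + 2, e), (p, .cap)] :=
  Move.far p (i + 2) .cap e (by simp [Elem.src]; omega)

theorem far_cup (p i : ℕ) (e : Elem) (h : p ≤ i) :
    Move [(p, .cup), (i + 2, e)] [(i, e), (p, .cup)] :=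
  Move.far p i .cup e (by simp [Elem.src]; omega)

theorem far_cross (p i : ℕ) (b : Bool) (e : Elem) (h : p + 2 ≤ i) :
    Move [(p, .cross b), (i, e)] [(i, e), (p, .cross b)] := by
  obtain ⟨j, rfl⟩ : ∃ j, i = j + 2 := ⟨i - 2, by omega⟩
  exact Move.far p (j + 2) (.cross b) e (by simp [Elem.src]; omega)

theorem rfar_cap (p i : ℕ) (e : Elem) (h : p ≤ i) :
    RunEq [(p, .cap), (i, e)] [(i + 2, e), (p, .cap)] :=
  runEq_far p (i + 2) .cap e (by simp [Elem.src]; omega)

theorem rfar_cup (p i : ℕ) (e : Elem) (h : p ≤ i) :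
    RunEq [(p, .cup), (i + 2, e)] [(i, e), (p, .cup)] :=
  runEq_far p i .cup e (by simp [Elem.src]; omega)

theorem rfar_cross (p i : ℕ) (b : Bool) (e : Elem) (h : p + 2 ≤ i) :
    RunEq [(p, .cross b), (i, e)] [(i, e), (p, .cross b)] := by
  obtain ⟨j, rfl⟩ : ∃ j, i = j + 2 := ⟨i - 2, by omega⟩
  exact runEq_far p (j + 2) (.cross b) e (by simp [Elem.src]; omega)

/-- the event is to the right of the pole -/
theorem slide_right (p i : ℕ) (e : Elem) (h : p + 1 ≤ i) (l l' : List Bool)
    (hr : run (circ p ++ [(i, e)]) l = some l') :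
    WI l l' (circ p ++ [(i, e)]) ((i, e) :: circ p) := by
  have s1 := WI.fwd (l := l) (l' := l') [(p + 1, .cup), (p, .cross false), (p, .cross false)]
    _ _ [] (far_cap (p + 1) i e h) hr
  have s2 := WI.fwd (l := l) (l' := l') [(p + 1, .cup), (p, .cross false)]
    _ _ [(p + 1, .cap)] (far_cross p (i + 2) false e (by omega)) s1.2.1
  have s3 := WI.fwd (l := l) (l' := l') [(p + 1, .cup)]
    _ _ [(p, .cross false), (p + 1, .cap)] (far_cross p (i + 2) false e (by omega)) s2.2.1
  have s4 := WI.fwd (l := l) (l' := l') []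
    _ _ [(p, .cross false), (p, .cross false), (p + 1, .cap)] (far_cup (p + 1) i e h) s3.2.1
  exact s1.trans (s2.trans (s3.trans s4))

/-- the event is to the left of the pole -/
theorem slide_left (p q i : ℕ) (e : Elem) (h : i + e.src ≤ p) (hq : q = p - e.src + e.tgt)
    (l l' : List Bool) (hr : run (circ p ++ [(i, e)]) l = some l') :
    WI l l' (circ p ++ [(i, e)]) ((i, e) :: circ q) := by
  have m : ∀ f, Move [(i, e), (q, f)] [(p, f), (i, e)] := fun f => by
    rw [hq]; exact Move.far i p e f h
  have r : ∀ f, RunEq [(i, e), (q, f)] [(p, f), (i, e)] := fun f => by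
    rw [hq]; exact runEq_far i p e f h
  have hq1 : q + 1 = (p + 1) - e.src + e.tgt := by omega
  have m1 : ∀ f, Move [(i, e), (q + 1, f)] [(p + 1, f), (i, e)] := fun f => by
    rw [hq1]; exact Move.far i (p + 1) e f (by omega)
  have r1 : ∀ f, RunEq [(i, e), (q + 1, f)] [(p + 1, f), (i, e)] := fun f => by
    rw [hq1]; exact runEq_far i (p + 1) e f (by omega)
  have s1 := WI.bwd (l := l) (l' := l') [(p + 1, .cup), (p, .cross false), (p, .cross false)]
    _ _ [] (m1 .cap) (r1 .cap) hr
  have s2 := WI.bwd (l := l) (l' := l') [(p + 1, .cup), (p, .cross false)]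
    _ _ [(q + 1, .cap)] (m (.cross false)) (r (.cross false)) s1.2.1
  have s3 := WI.bwd (l := l) (l' := l') [(p + 1, .cup)]
    _ _ [(q, .cross false), (q + 1, .cap)] (m (.cross false)) (r (.cross false)) s2.2.1
  have s4 := WI.bwd (l := l) (l' := l') []
    _ _ [(q, .cross false), (q, .cross false), (q + 1, .cap)] (m1 .cup) (r1 .cup) s3.2.1
  exact s1.trans (s2.trans (s3.trans s4))

/-- a strand of the link crosses the pole from the right to the left -/
theorem slide_c1 (l1 l2 : List Bool) (b nb : Bool) (hb : nb = !b) :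
    WI (l1 ++ false :: true :: l2) (l1 ++ true :: false :: l2)
      (circ l1.length ++ [(l1.length, .cross b)])
      ((l1.length, .cross b) :: circ (l1.length + 1)) := by
  have hb' : b = !nb := by rw [hb]; simp
  set l := l1 ++ false :: true :: l2 with hl
  set l' := l1 ++ true :: false :: l2 with hl'
  have h1 : run ([(l1.length + 1, .cup), (l1.length, .cross false), (l1.length, .cross false)] ++
      [(l1.length + 2, .cross b), (l1.length + 2, .cross nb)] ++
      [(l1.length + 1, .cap), (l1.length, .cross b)]) l = some l' := by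
    rw [hl, hl']
    simp [run, step_pre, step_pre0, step, Elem.head]
  set p := l1.length with hp
  have m2 : ∀ i, Move [(i, .cross b), (i, .cross nb)] [] := fun i => by
    rw [hb]; exact Move.r2 i b
  have m2' : ∀ i, Move [(i, .cross nb), (i, .cross b)] [] := fun i => by
    conv => arg 1; rw [hb']
    have := Move.r2 i nb
    rw [← hb'] at this ⊢
    exact this
  have mcap : Move [(p + 1 + 1, .cross nb), (p + 1, .cap)] [(p + 1, .cross b), (p + 1 + 1, .cap)] := by
    have := Move.slideCap (p + 1) nb
    rw [← hb'] at this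
    exact this
  have mcup : Move [(p + 1, .cup), (p + 1 + 1, .cross b)] [(p + 1 + 1, .cup), (p + 1, .cross nb)] := by
    have := Move.slideCup (p + 1) b
    rw [← hb] at this
    exact this
  have s0 := WI.fwd _ _ _ _ (m2 (p + 2)) h1
  have s1 := WI.fwd (l := l) (l' := l') [(p + 1, .cup), (p, .cross false), (p, .cross false),
    (p + 2, .cross b)] _ _ [(p, .cross b)] mcap h1
  have s2 := WI.bwd (l := l) (l' := l') [(p + 1, .cup), (p, .cross false), (p, .cross false),
    (p + 2, .cross b), (p + 1, .cross b)] _ _ [] (far_cross p (p + 2) b .cap (by omega))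
    (rfar_cross p (p + 2) b .cap (by omega)) s1.2.1
  have s3 := WI.fwd (l := l) (l' := l') [(p + 1, .cup), (p, .cross false)] _ _
    [(p + 1, .cross b), (p, .cross b), (p + 2, .cap)]
    (far_cross p (p + 2) false (.cross b) (by omega)) s2.2.1
  have s4 := WI.fwd (l := l) (l' := l') [(p + 1, .cup)] _ _
    [(p, .cross false), (p + 1, .cross b), (p, .cross b), (p + 2, .cap)]
    (far_cross p (p + 2) false (.cross b) (by omega)) s3.2.1
  have s5 := WI.fwd (l := l) (l' := l') [(p + 1, .cup), (p + 2, .cross b), (p, .cross false)] _ _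
    [(p + 2, .cap)] (Move.r3 p false b b (fun h => h.symm)) s4.2.1
  have s6 := WI.fwd (l := l) (l' := l') [(p + 1, .cup), (p + 2, .cross b)] _ _
    [(p + 1, .cross false), (p + 2, .cap)] (Move.r3 p false b b (fun h => h.symm)) s5.2.1
  have s7 := WI.fwd (l := l) (l' := l') [] _ _
    [(p + 1, .cross b), (p, .cross b), (p + 1, .cross false), (p + 1, .cross false), (p + 2, .cap)]
    mcup s6.2.1
  have s8 := WI.fwd (l := l) (l' := l') [(p + 2, .cup)] _ _
    [(p, .cross b), (p + 1, .cross false), (p + 1, .cross false), (p + 2, .cap)]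
    (m2' (p + 1)) s7.2.1
  have s9 := WI.bwd (l := l) (l' := l') [] _ _
    [(p + 1, .cross false), (p + 1, .cross false), (p + 2, .cap)]
    (far_cross p (p + 2) b .cup (by omega)) (rfar_cross p (p + 2) b .cup (by omega)) s8.2.1
  exact s0.symm.trans (s1.trans (s2.trans (s3.trans (s4.trans (s5.trans (s6.trans (s7.trans
    (s8.trans s9))))))))

/-- a strand of the link crosses the pole from the left to the right -/
theorem slide_c2 (l1 l2 : List Bool) (b nb : Bool) (hb : nb = !b) :
    WI (l1 ++ true :: false :: l2) (l1 ++ false :: true :: l2)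
      (circ (l1.length + 1) ++ [(l1.length, .cross b)])
      ((l1.length, .cross b) :: circ l1.length) := by
  have hb' : b = !nb := by rw [hb]; simp
  set l := l1 ++ true :: false :: l2 with hl
  set l' := l1 ++ false :: true :: l2 with hl'
  have h1 : run ([(l1.length + 2, .cup), (l1.length + 1, .cross false),
      (l1.length + 1, .cross false), (l1.length, .cross b)] ++
      [(l1.length + 1, .cross b), (l1.length + 1, .cross nb)] ++
      [(l1.length + 2, .cap)]) l = some l' := by
    rw [hl, hl']
    simp [run, step_pre, step_pre0, step, Elem.head]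
  set p := l1.length with hp
  have m2 : ∀ i, Move [(i, .cross b), (i, .cross nb)] [] := fun i => by
    rw [hb]; exact Move.r2 i b
  have m2' : ∀ i, Move [(i, .cross nb), (i, .cross b)] [] := fun i => by
    conv => arg 1; rw [hb']
    have := Move.r2 i nb
    rw [← hb'] at this ⊢
    exact this
  have mcap : Move [(p + 2, .cross b), (p + 1, .cap)] [(p + 1, .cross nb), (p + 2, .cap)] := by
    have := Move.slideCap (p + 1) b
    rw [← hb] at this
    exact this
  have rcap : RunEq [(p + 2, .cross b), (p + 1, .cap)] [(p + 1, .cross nb), (p + 2, .cap)] := by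
    have := runEq_slideCap (p + 1) b
    rw [← hb] at this
    exact this
  have mcup : Move [(p + 1, .cup), (p + 2, .cross nb)] [(p + 2, .cup), (p + 1, .cross b)] := by
    have := Move.slideCup (p + 1) nb
    rw [← hb'] at this
    exact this
  have rcup : RunEq [(p + 1, .cup), (p + 2, .cross nb)] [(p + 2, .cup), (p + 1, .cross b)] := by
    have := runEq_slideCup (p + 1) nb
    rw [← hb'] at this
    exact this
  have t0 := WI.fwd _ _ _ _ (m2 (p + 1)) h1
  have t0' := WI.fwd (l := l) (l' := l') [(p + 2, .cup), (p + 1, .cross false),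
    (p + 1, .cross false)] _ _ [] (far_cross p (p + 2) b .cap (by omega)) t0.2.1
  have t1 := WI.bwd (l := l) (l' := l') [(p + 2, .cup), (p + 1, .cross false),
    (p + 1, .cross false), (p, .cross b), (p + 1, .cross b)] _ _ [] mcap rcap h1
  have t2 := WI.bwd (l := l) (l' := l') [(p + 2, .cup), (p + 1, .cross false)] _ _
    [(p + 2, .cross b), (p + 1, .cap)] (Move.r3 p b b false (fun _ => rfl))
    (runEq_r3 p b b false) t1.2.1
  have t3 := WI.bwd (l := l) (l' := l') [(p + 2, .cup)] _ _
    [(p, .cross false), (p + 2, .cross b), (p + 1, .cap)] (Move.r3 p b b false (fun _ => rfl))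
    (runEq_r3 p b b false) t2.2.1
  have t4 := WI.fwd (l := l) (l' := l') [(p + 2, .cup), (p, .cross b), (p + 1, .cross b),
    (p, .cross false)] _ _ [(p + 1, .cap)] (far_cross p (p + 2) false (.cross b) (by omega)) t3.2.1
  have t5 := WI.fwd (l := l) (l' := l') [(p + 2, .cup), (p, .cross b), (p + 1, .cross b)] _ _
    [(p, .cross false), (p + 1, .cap)] (far_cross p (p + 2) false (.cross b) (by omega)) t4.2.1
  have t6 := WI.bwd (l := l) (l' := l') [] _ _
    [(p + 1, .cross b), (p + 2, .cross b), (p, .cross false), (p, .cross false), (p + 1, .cap)]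
    (far_cross p (p + 2) b .cup (by omega)) (rfar_cross p (p + 2) b .cup (by omega)) t5.2.1
  have t7 := WI.bwd (l := l) (l' := l') [(p, .cross b)] _ _
    [(p + 2, .cross b), (p, .cross false), (p, .cross false), (p + 1, .cap)]
    mcup rcup t6.2.1
  have t8 := WI.fwd (l := l) (l' := l') [(p, .cross b), (p + 1, .cup)] _ _
    [(p, .cross false), (p, .cross false), (p + 1, .cap)] (m2' (p + 2)) t7.2.1
  exact t0'.symm.trans (t0.symm.trans (t1.trans (t2.trans (t3.trans (t4.trans (t5.trans (t6.trans
    (t7.trans t8))))))))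

end Pool.Agent.P8H80.SK
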