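import Pool.Agent.P8H80.SK.Slide2

/-!
# Moving a small circle along a pole through a word
-/

set_option autoImplicit false
set_option linter.unusedSimpArgs false

namespace Pool.Agent.P8H80.SK

theorem polePos_append (l1 l2 : List Bool) :
    polePos (l1 ++ false :: l2) (l1.count false) = l1.length := by
  induction l1 with
  | nil => rfl
  | cons x l1 ih =>
    cases x
    · simp only [List.cons_append, List.count_cons_self, polePos, ih, List.length_cons]
    · simp only [List.cons_append, polePos, List.length_cons]
      rw [List.count_cons_of_ne (by simp), ih]

theorem exists_pole (l : List Bool) (k : ℕ) (h : k < l.count false) :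
    ∃ l1 l2, l = l1 ++ false :: l2 ∧ l1.count false = k := by
  induction l generalizing k with
  | nil => simp at h
  | cons x l ih =>
    cases x
    · cases k with
      | zero => exact ⟨[], l, rfl, rfl⟩
      | succ k =>
        simp only [List.count_cons_self] at h
        obtain ⟨l1, l2, rfl, h2⟩ := ih k (by omega)
        exact ⟨false :: l1, l2, rfl, by simp [h2]⟩
    · rw [List.count_cons_of_ne (by simp)] at h
      obtain ⟨l1, l2, rfl, h2⟩ := ih k h
      exact ⟨true :: l1, l2, rfl, by rw [List.count_cons_of_ne (by simp)]; exact h2⟩

theorem event_cases (l1 l2 l' : List Bool) (i : ℕ) (e : Elem)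
    (h : step i e (l1 ++ false :: l2) = some l') :
    (l1.length + 1 ≤ i ∧ ∃ l2', l' = l1 ++ false :: l2') ∨
    (i + e.src ≤ l1.length ∧ ∃ l1', l' = l1' ++ false :: l2 ∧
      l1'.length = l1.length - e.src + e.tgt ∧ l1'.count false = l1.count false) ∨
    (i = l1.length ∧ ∃ b l2', e = .cross b ∧ l2 = true :: l2' ∧ l' = l1 ++ true :: false :: l2') ∨
    (∃ b l1', e = .cross b ∧ l1 = l1' ++ [true] ∧ i = l1'.length ∧
      l' = l1' ++ false :: true :: l2) := by
  induction l1 generalizing i l' with
  | nil =>
    cases i with
    | zero =>
      cases e with
      | cup =>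
        right; left
        simp only [step, Elem.head, List.nil_append, Option.some.injEq] at h
        exact ⟨by simp [Elem.src], [true, true], by simp [← h], by simp [Elem.src, Elem.tgt],
          by simp⟩
      | cap => simp [step, Elem.head] at h
      | cross b =>
        rcases l2 with _ | ⟨_ | _, l2⟩
        · simp [step, Elem.head] at h
        · simp [step, Elem.head] at h
        · right; right; left
          simp only [step, Elem.head, List.nil_append, Option.some.injEq, Bool.or_true,
            if_true] at h
          exact ⟨rfl, b, l2, rfl, rfl, by simp [← h]⟩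
    | succ i =>
      left
      simp only [List.nil_append, step] at h
      cases h3 : step i e l2 with
      | none => rw [h3] at h; simp at h
      | some l3 =>
        rw [h3] at h
        simp only [Option.map_some, Option.some.injEq] at h
        exact ⟨by simp, l3, by simp [← h]⟩
  | cons x l1 ih =>
    cases i with
    | zero =>
      cases e with
      | cup =>
        right; left
        simp only [step, Elem.head, List.cons_append, Option.some.injEq] at h
        exact ⟨by simp [Elem.src], true :: true :: x :: l1, by simp [← h],
          by simp [Elem.src, Elem.tgt], by simp [List.count_cons]⟩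
      | cap =>
        right; left
        rcases l1 with _ | ⟨y, l1⟩
        · cases x <;> simp [step, Elem.head] at h
        · cases x <;> cases y <;> simp [step, Elem.head] at h
          exact ⟨by simp [Elem.src], l1, h.symm, by simp [Elem.src, Elem.tgt],
            by simp [List.count_cons]⟩
      | cross b =>
        rcases l1 with _ | ⟨y, l1⟩
        · right; right; right
          cases x
          · simp [step, Elem.head] at h
          · simp [step, Elem.head] at h
            exact ⟨b, [], rfl, rfl, rfl, by simp [← h]⟩
        · right; left
          simp only [step, Elem.head, List.cons_append] at h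
          split_ifs at h with hxy
          simp only [Option.some.injEq] at h
          exact ⟨by simp [Elem.src], y :: x :: l1, by simp [← h], by simp [Elem.src, Elem.tgt],
            by simp only [List.count_cons]; omega⟩
    | succ i =>
      simp only [List.cons_append, step] at h
      cases h3 : step i e (l1 ++ false :: l2) with
      | none => rw [h3] at h; simp at h
      | some l3 =>
        rw [h3] at h
        simp only [Option.map_some, Option.some.injEq] at h
        rcases ih l3 i h3 with ⟨h4, l2', h5⟩ | ⟨h4, l1', h5, h6, h7⟩ | ⟨h4, b, l2', h5, h6, h7⟩ |
          ⟨b, l1', h4, h5, h6, h7⟩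
        · left
          exact ⟨by simp; omega, l2', by simp [← h, h5]⟩
        · right; left
          refine ⟨by simp; omega, x :: l1', by simp [← h, h5], ?_, ?_⟩
          · simp only [List.length_cons]; omega
          · simp only [List.count_cons, h7]
        · right; right; left
          exact ⟨by simp [h4], b, l2', h5, h6, by simp [← h, h7]⟩
        · right; right; right
          exact ⟨b, x :: l1', h4, by simp [h5], by simp [h6], by simp [← h, h7]⟩

theorem slide_event (l l' : List Bool) (i : ℕ) (e : Elem) (k : ℕ) (hk : k < l.count false)
    (h : step i e l = some l') :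
    k < l'.count false ∧
      WI l l' (circ (polePos l k) ++ [(i, e)]) ((i, e) :: circ (polePos l' k)) := by
  obtain ⟨l1, l2, rfl, rfl⟩ := exists_pole l k hk
  have hr : run (circ l1.length ++ [(i, e)]) (l1 ++ false :: l2) = some l' := by
    rw [run_app, run_circ]
    simp [run, h]
  rw [polePos_append]
  rcases event_cases l1 l2 l' i e h with ⟨h4, l2', rfl⟩ | ⟨h4, l1', rfl, h6, h7⟩ |
    ⟨h4, b, l2', rfl, rfl, rfl⟩ | ⟨b, l1', rfl, rfl, rfl, rfl⟩
  · rw [polePos_append]
    exact ⟨by simp, slide_right _ i e h4 _ _ hr⟩
  · refine ⟨by simp; omega, ?_⟩
    rw [← h7, polePos_append]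
    exact slide_left _ _ i e h4 h6 _ _ hr
  · have h8 : polePos (l1 ++ true :: false :: l2') (l1.count false) = l1.length + 1 := by
      have h9 := polePos_append (l1 ++ [true]) l2'
      simp only [List.append_assoc, List.cons_append, List.nil_append, List.count_append,
        List.length_append, List.length_cons, List.length_nil] at h9
      rw [← h9]
      congr 1
    refine ⟨by simp, ?_⟩
    rw [h8, h4]
    exact slide_c1 l1 l2' b _ rfl
  · have h8 : (l1' ++ [true]).count false = l1'.count false := by
      simp [List.count_append]
    have h9 : (l1' ++ [true]).length = l1'.length + 1 := by simp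
    rw [h8, h9, polePos_append]
    refine ⟨by simp, ?_⟩
    have h10 := slide_c2 l1' l2 b _ rfl
    simpa using h10

theorem slide_word (u : Word) (l l' : List Bool) (k : ℕ) (hk : k < l.count false)
    (h : run u l = some l') :
    k < l'.count false ∧ WI l l' (circ (polePos l k) ++ u) (u ++ circ (polePos l' k)) := by
  induction u generalizing l with
  | nil =>
    simp only [run, Option.some.injEq] at h
    subst h
    refine ⟨hk, ?_⟩
    simp only [List.append_nil, List.nil_append]
    apply WI.refl
    obtain ⟨l1, l2, rfl, rfl⟩ := exists_pole l k hk
    rw [polePos_append]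
    exact run_circ l1 l2
  | cons p u ih =>
    obtain ⟨i, e⟩ := p
    simp only [run] at h
    cases h3 : step i e l with
    | none => rw [h3] at h; simp at h
    | some l3 =>
      rw [h3, Option.bind_some] at h
      obtain ⟨hk3, w1⟩ := slide_event l l3 i e k hk h3
      obtain ⟨hk', w2⟩ := ih l3 hk3 h
      refine ⟨hk', ?_⟩
      have w3 := w1.ctx [] u rfl h
      have w4 := w2.ctx (l0 := l) [(i, e)] [] (by simp [run, h3]) (rfl : run [] l' = some l')
      have e1 : circ (polePos l k) ++ (i, e) :: u =
          [] ++ (circ (polePos l k) ++ [(i, e)]) ++ u := by simp
      have e2 : (i, e) :: u ++ circ (polePos l' k) =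
          [(i, e)] ++ (u ++ circ (polePos l' k)) ++ [] := by simp
      rw [e1, e2]
      refine w3.trans ?_
      have e3 : [] ++ ((i, e) :: circ (polePos l3 k)) ++ u =
          [(i, e)] ++ (circ (polePos l3 k) ++ u) ++ [] := by simp
      rw [e3]
      exact w4

end Pool.Agent.P8H80.SK
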