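import Pool.Agent.P8H80.SK.Moves4

/-!
# Moves and supports
-/

set_option autoImplicit false
set_option linter.unusedSimpArgs false
set_option linter.unusedVariables false
set_option linter.unusedTactic false
set_option linter.unreachableTactic false
set_option linter.unusedSectionVars false

namespace Pool.Agent.P8H80.SK

variable {K : Type} [Field K] [Par K]

theorem good_of_move {a b : Word} (h : Move a b) : Good K a b := by
  cases h with
  | zig i =>
    induction i with
    | zero => exact good_zig
    | succ i ih => exact Good.shift ih (by simp)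
  | zag i =>
    induction i with
    | zero => exact good_zag
    | succ i ih => exact Good.shift ih (by simp)
  | slideCup i b =>
    induction i with
    | zero => exact good_slideCup b
    | succ i ih => exact Good.shift ih (by simp)
  | slideCap i b =>
    induction i with
    | zero => exact good_slideCap b
    | succ i ih => exact Good.shift ih (by simp)
  | r1 i b =>
    induction i with
    | zero => exact good_r1 b
    | succ i ih => exact Good.shift ih (by simp)
  | r2 i b =>
    induction i with
    | zero => exact good_r2 b
    | succ i ih => exact Good.shift ih (by simp)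
  | r3 i a b c hc =>
    induction i with
    | zero => exact good_r3 a b c hc
    | succ i ih => exact Good.shift ih (by simp)
  | far i j e f hij =>
    induction i generalizing j with
    | zero =>
      intro x l' _ _
      simp only [T_cons, T_nil]
      obtain ⟨n, rfl⟩ : ∃ n, j = n + e.src := ⟨j - e.src, by omega⟩
      rw [Nat.add_sub_cancel]
      exact T1_zero_comm e f n (bs K x)
    | succ i ih =>
      obtain ⟨j, rfl⟩ : ∃ m, j = m + 1 := ⟨j - 1, by omega⟩
      have h1 := Good.shift (ih j (by omega)) (by simp)
      have h2 : j + 1 - e.src + e.tgt = (j - e.src + e.tgt) + 1 := by omega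
      rw [h2]
      exact h1

variable (K) in
/-- vectors with given kinds of strands and given weight -/
noncomputable def Sup (l : List Bool) (w : ℤ) : Submodule K (V K) :=
  Finsupp.supported K K {x | kinds x = l ∧ wt x = w}

theorem bs_mem_Sup (x : List Cell) (l : List Bool) (w : ℤ) (h1 : kinds x = l) (h2 : wt x = w) :
    bs K x ∈ Sup K l w := by
  unfold Sup bs
  exact Finsupp.single_mem_supported K 1 ⟨h1, h2⟩

theorem Sup_eq_span (l : List Bool) (w : ℤ) :
    Sup K l w = Submodule.span K {v | ∃ x, kinds x = l ∧ wt x = w ∧ v = bs K x} := by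
  unfold Sup
  rw [Finsupp.supported_eq_span_single]
  congr 1
  ext v
  simp only [Set.mem_image, Set.mem_setOf_eq, bs]
  constructor
  · rintro ⟨x, ⟨h1, h2⟩, rfl⟩
    exact ⟨x, h1, h2, rfl⟩
  · rintro ⟨x, h1, h2, rfl⟩
    exact ⟨x, ⟨h1, h2⟩, rfl⟩

theorem map_mem_of_bs {M : Type*} [AddCommMonoid M] [Module K M] (f : V K →ₗ[K] M) (l : List Bool)
    (w : ℤ) (N : Submodule K M) (h : ∀ x, kinds x = l → wt x = w → f (bs K x) ∈ N) {v : V K}
    (hv : v ∈ Sup K l w) : f v ∈ N := by
  rw [Sup_eq_span] at hv
  induction hv using Submodule.span_induction with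
  | mem v hv => obtain ⟨x, h1, h2, rfl⟩ := hv; exact h x h1 h2
  | zero => simp
  | add u v _ _ h1 h2 => rw [map_add]; exact N.add_mem h1 h2
  | smul r v _ h => rw [map_smul]; exact N.smul_mem r h

theorem cons_mem_Sup {l : List Bool} {w : ℤ} (c : Cell) {v : V K} (hv : v ∈ Sup K l w) :
    cons c v ∈ Sup K (kind c :: l) (wtc c + w) := by
  refine map_mem_of_bs (cons c) l w _ (fun x h1 h2 => ?_) hv
  rw [cons_bs]
  exact bs_mem_Sup _ _ _ (by simp [h1]) (by simp [h2])

theorem hd_mem_Sup (e : Elem) (x : List Cell) (l' : List Bool) (h : e.head (kinds x) = some l') :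
    (hd e x : V K) ∈ Sup K l' (wt x) := by
  cases e with
  | cup =>
    simp only [Elem.head, Option.some.injEq] at h
    subst h
    simp only [hd]
    refine Submodule.add_mem _ (bs_mem_Sup _ _ _ (by simp) (by simp)) (Submodule.smul_mem _ _
      (bs_mem_Sup _ _ _ (by simp) (by simp)))
  | cap =>
    rcases x with _ | ⟨(_ | _) | j, _ | ⟨(_ | _) | j', x⟩⟩ <;>
      simp only [kinds_nil, kinds_cons, kind_inl, kind_inr, Elem.head, Option.some.injEq,
        reduceCtorEq] at h
    · simp [hd]
    · subst h
      simp only [hd]
      exact bs_mem_Sup _ _ _ rfl (by simp)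
    · subst h
      simp only [hd]
      exact Submodule.smul_mem _ _ (bs_mem_Sup _ _ _ rfl (by simp))
    · simp [hd]
  | cross b =>
    rcases x with _ | ⟨(_ | _) | j, _ | ⟨(_ | _) | j', x⟩⟩ <;>
      simp only [kinds_nil, kinds_cons, kind_inl, kind_inr, Elem.head, Option.some.injEq,
        reduceCtorEq, Bool.or_true, Bool.true_or, Bool.or_self, if_true, if_false,
        Bool.false_eq_true] at h
    · subst h
      simp only [hd]
      exact Submodule.smul_mem _ _ (bs_mem_Sup _ _ _ (by simp) (by simp))
    · subst h
      simp only [hd]
      exact Submodule.add_mem _ (Submodule.smul_mem _ _ (bs_mem_Sup _ _ _ (by simp) (by simp)))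
        (Submodule.smul_mem _ _ (bs_mem_Sup _ _ _ (by simp) (by simp)))
    · subst h
      cases b
      · simp only [hd]
        exact Submodule.add_mem _ (Submodule.smul_mem _ _ (bs_mem_Sup _ _ _ (by simp)
          (by simp; ring))) (Submodule.smul_mem _ _ (bs_mem_Sup _ _ _ (by simp)
          (by simp; ring)))
      · simp only [hd]
        exact Submodule.smul_mem _ _ (bs_mem_Sup _ _ _ (by simp) (by simp; ring))
    · subst h
      simp only [hd]
      exact Submodule.add_mem _ (Submodule.smul_mem _ _ (bs_mem_Sup _ _ _ (by simp) (by simp)))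
        (Submodule.smul_mem _ _ (bs_mem_Sup _ _ _ (by simp) (by simp)))
    · subst h
      simp only [hd]
      exact Submodule.smul_mem _ _ (bs_mem_Sup _ _ _ (by simp) (by simp))
    · subst h
      cases b
      · simp only [hd]
        exact Submodule.smul_mem _ _ (bs_mem_Sup _ _ _ (by simp) (by simp; ring))
      · rcases j' with _ | j'
        · simp only [hd, pd_zero, smul_zero, add_zero]
          exact Submodule.smul_mem _ _ (bs_mem_Sup _ _ _ (by simp) (by simp; try ring))
        · simp only [hd, pd_succ]
          exact Submodule.add_mem _ (Submodule.smul_mem _ _ (bs_mem_Sup _ _ _ (by simp)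
            (by simp; ring))) (Submodule.smul_mem _ _ (Submodule.smul_mem _ _
            (bs_mem_Sup _ _ _ (by simp) (by simp; ring))))
    · subst h
      cases b
      · simp only [hd]
        exact Submodule.smul_mem _ _ (bs_mem_Sup _ _ _ (by simp) (by simp; ring))
      · simp only [hd]
        exact Submodule.add_mem _ (Submodule.smul_mem _ _ (bs_mem_Sup _ _ _ (by simp)
          (by simp; ring))) (bs_mem_Sup _ _ _ (by simp) (by simp; ring))
    · subst h
      cases b
      · rcases j with _ | j
        · simp only [hd, pd_zero, smul_zero, add_zero]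
          exact Submodule.smul_mem _ _ (bs_mem_Sup _ _ _ (by simp) (by simp; try ring))
        · simp only [hd, pd_succ]
          exact Submodule.add_mem _ (Submodule.smul_mem _ _ (bs_mem_Sup _ _ _ (by simp)
            (by simp; ring))) (Submodule.smul_mem _ _
            (bs_mem_Sup _ _ _ (by simp) (by simp; ring)))
      · simp only [hd]
        exact Submodule.smul_mem _ _ (bs_mem_Sup _ _ _ (by simp) (by simp; ring))

theorem act_mem_Sup (i : ℕ) (e : Elem) (x : List Cell) (l' : List Bool)
    (h : step i e (kinds x) = some l') : (act i e x : V K) ∈ Sup K l' (wt x) := by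
  induction i generalizing x l' with
  | zero => exact hd_mem_Sup e x l' h
  | succ i ih =>
    cases x with
    | nil => simp [step] at h
    | cons c x =>
      simp only [kinds_cons, step] at h
      cases h3 : step i e (kinds x) with
      | none => rw [h3] at h; simp at h
      | some l3 =>
        rw [h3] at h
        simp only [Option.map_some, Option.some.injEq] at h
        subst h
        simp only [act, wt_cons]
        exact cons_mem_Sup c (ih x l3 h3)

theorem T1_mem_Sup {i : ℕ} {e : Elem} {l l' : List Bool} {w : ℤ} (h : step i e l = some l')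
    {v : V K} (hv : v ∈ Sup K l w) : T1 K i e v ∈ Sup K l' w := by
  refine map_mem_of_bs (T1 K i e) l w _ (fun x h1 h2 => ?_) hv
  rw [T1_bs, ← h2]
  exact act_mem_Sup i e x l' (by rw [h1]; exact h)

theorem T_mem_Sup {u : Word} {l l' : List Bool} {w : ℤ} (h : run u l = some l')
    {v : V K} (hv : v ∈ Sup K l w) : T K u v ∈ Sup K l' w := by
  induction u generalizing l v with
  | nil =>
    simp only [run, Option.some.injEq] at h
    subst h
    exact hv
  | cons p u ih =>
    obtain ⟨i, e⟩ := p
    simp only [run] at h
    cases h3 : step i e l with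
    | none => rw [h3] at h; simp at h
    | some l3 =>
      rw [h3] at h
      exact ih h (T1_mem_Sup h3 hv)

/-- equal operators on vectors for which the words make sense -/
theorem T_congr {a b : Word} (hab : Good K a b) {l l' : List Bool} {w : ℤ}
    (ha : run a l = some l') (hb : run b l = some l') {v : V K} (hv : v ∈ Sup K l w) :
    T K a v = T K b v := by
  have h1 := map_mem_of_bs (T K a - T K b) l w (⊥ : Submodule K (V K)) (fun x h1 h2 => by
    subst h1
    simp only [LinearMap.sub_apply, Submodule.mem_bot]
    rw [hab x l' ha hb, sub_self]) hv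
  simp only [LinearMap.sub_apply, Submodule.mem_bot] at h1
  exact sub_eq_zero.mp h1

end Pool.Agent.P8H80.SK
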