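import Pool.Agent.P8H80.SK.Sup
import Pool.Agent.P8H80.SK.RunMove

/-!
# Traces on weight spaces
-/

set_option autoImplicit false
set_option linter.unusedSectionVars false

namespace Pool.Agent.P8H80.SK

variable {K : Type} [Field K] [Par K]

theorem wt_le (x : List Cell) : wt x ≤ (kinds x).length := by
  induction x with
  | nil => simp
  | cons c x ih =>
    rcases c with (_ | _) | j
    · simp only [wt_cons, wtc_f, kinds_cons, List.length_cons]; push_cast; omega
    · simp only [wt_cons, wtc_t, kinds_cons, List.length_cons]; push_cast; omega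
    · simp only [wt_cons, wtc_r, kinds_cons, List.length_cons]; push_cast; omega

theorem finite_states (l : List Bool) (w : ℤ) :
    {x : List Cell | kinds x = l ∧ wt x = w}.Finite := by
  induction l generalizing w with
  | nil =>
    refine (Set.finite_singleton ([] : List Cell)).subset ?_
    rintro x ⟨h1, _⟩
    cases x with
    | nil => rfl
    | cons c x => simp at h1
  | cons b l ih =>
    have h : {x : List Cell | kinds x = b :: l ∧ wt x = w} ⊆
        (fun y => (.inl true : Cell) :: y) '' {x | kinds x = l ∧ wt x = w - 1} ∪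
        (fun y => (.inl false : Cell) :: y) '' {x | kinds x = l ∧ wt x = w + 1} ∪
        ⋃ j ∈ Finset.range (((l.length : ℤ) - w).toNat + 1),
          (fun y => (.inr j : Cell) :: y) '' {x | kinds x = l ∧ wt x = w + 2 * j} := by
      rintro x ⟨h1, h2⟩
      cases x with
      | nil => simp at h1
      | cons c x =>
        simp only [kinds_cons, List.cons.injEq] at h1
        simp only [wt_cons] at h2
        rcases c with (_ | _) | j
        · left; right
          exact ⟨x, ⟨h1.2, by simp only [wtc_f] at h2; omega⟩, rfl⟩
        · left; left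
          exact ⟨x, ⟨h1.2, by simp only [wtc_t] at h2; omega⟩, rfl⟩
        · right
          simp only [wtc_r] at h2
          have h3 := wt_le x
          rw [h1.2] at h3
          simp only [Set.mem_iUnion]
          refine ⟨j, ?_, x, ⟨h1.2, by omega⟩, rfl⟩
          rw [Finset.mem_range]
          omega
    refine Set.Finite.subset ?_ h
    refine ((ih _).image _).union ((ih _).image _) |>.union ?_
    exact Set.Finite.biUnion (Finset.finite_toSet _) (fun j _ => (ih _).image _)

/-- the states with given kinds of strands and given weight -/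
noncomputable def St (l : List Bool) (w : ℤ) : Finset (List Cell) := (finite_states l w).toFinset

@[simp] theorem mem_St {l : List Bool} {w : ℤ} {x : List Cell} :
    x ∈ St l w ↔ kinds x = l ∧ wt x = w := by simp [St]

theorem Sup_sum {l : List Bool} {w : ℤ} {v : V K} (hv : v ∈ Sup K l w) :
    v = ∑ y ∈ St l w, v y • bs K y := by
  have h1 : ∀ y, y ∉ St l w → v y = 0 := by
    intro y hy
    by_contra h
    apply hy
    have h2 : (v.support : Set (List Cell)) ⊆ {x | kinds x = l ∧ wt x = w} :=
      (Finsupp.mem_supported K v).1 hv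
    have := h2 (Finset.mem_coe.2 (Finsupp.mem_support_iff.2 h))
    exact mem_St.2 this
  ext z
  rw [Finsupp.finset_sum_apply]
  by_cases hz : z ∈ St l w
  · rw [Finset.sum_eq_single z]
    · simp [bs]
    · intro y _ hyz
      simp [bs, Finsupp.single_apply, hyz]
    · intro h; exact absurd hz h
  · rw [h1 z hz, Finset.sum_eq_zero]
    intro y hy
    have : y ≠ z := by rintro rfl; exact hz hy
    simp [bs, Finsupp.single_apply, this]

/-- trace on a weight space -/
noncomputable def tr (l : List Bool) (w : ℤ) (f : V K →ₗ[K] V K) : K :=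
  ∑ x ∈ St l w, f (bs K x) x

theorem tr_add (l : List Bool) (w : ℤ) (f f' : V K →ₗ[K] V K) :
    tr l w (f + f') = tr l w f + tr l w f' := by
  simp [tr, Finset.sum_add_distrib]

theorem tr_smul (l : List Bool) (w : ℤ) (c : K) (f : V K →ₗ[K] V K) :
    tr l w (c • f) = c * tr l w f := by
  simp [tr, Finset.mul_sum]

theorem tr_congr {l : List Bool} {w : ℤ} {f f' : V K →ₗ[K] V K}
    (h : ∀ v ∈ Sup K l w, f v = f' v) : tr l w f = tr l w f' := by
  refine Finset.sum_congr rfl fun x hx => ?_
  rw [mem_St] at hx
  rw [h (bs K x) (bs_mem_Sup x l w hx.1 hx.2)]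

theorem tr_comm {l l' : List Bool} {w w' : ℤ} {f g : V K →ₗ[K] V K}
    (hf : ∀ v ∈ Sup K l w, f v ∈ Sup K l' w') (hg : ∀ v ∈ Sup K l' w', g v ∈ Sup K l w) :
    tr l w (g ∘ₗ f) = tr l' w' (f ∘ₗ g) := by
  have h1 : ∀ x ∈ St l w, (g ∘ₗ f) (bs K x) x =
      ∑ y ∈ St l' w', (f (bs K x)) y * (g (bs K y)) x := by
    intro x hx
    rw [mem_St] at hx
    have h2 := Sup_sum (hf _ (bs_mem_Sup x l w hx.1 hx.2))
    rw [LinearMap.comp_apply]
    conv_lhs => rw [h2]
    rw [map_sum, Finsupp.finset_sum_apply]
    refine Finset.sum_congr rfl fun y _ => ?_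
    simp
  have h3 : ∀ y ∈ St l' w', (f ∘ₗ g) (bs K y) y =
      ∑ x ∈ St l w, (g (bs K y)) x * (f (bs K x)) y := by
    intro y hy
    rw [mem_St] at hy
    have h2 := Sup_sum (hg _ (bs_mem_Sup y l' w' hy.1 hy.2))
    rw [LinearMap.comp_apply]
    conv_lhs => rw [h2]
    rw [map_sum, Finsupp.finset_sum_apply]
    refine Finset.sum_congr rfl fun y _ => ?_
    simp
  unfold tr
  rw [Finset.sum_congr rfl h1, Finset.sum_congr rfl h3, Finset.sum_comm]
  refine Finset.sum_congr rfl fun y _ => Finset.sum_congr rfl fun x _ => ?_
  rw [mul_comm]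

/-- the weighted traces of a diagram -/
noncomputable def psi (K : Type) [Field K] [Par K] (D : Diagram) (w : ℤ) : K :=
  tr D.top w (T K D.word)

theorem T_comp (u v : Word) : T K (u ++ v) = T K v ∘ₗ T K u := by
  ext1 x
  ext1
  simp [T_append]

theorem psi_step {D D' : Diagram} (h : Step D D') : psi K D = psi K D' := by
  funext w
  cases h with
  | move u a b v h ht hD hD' =>
    unfold psi
    rw [ht]
    apply tr_congr
    intro x hx
    rw [hD, hD']
    simp only [T_append]
    have h1 := D.closed
    have h2 := D'.closed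
    rw [ht, hD'] at h2
    rw [hD] at h1
    simp only [run_append] at h1 h2
    cases hu : run u D.top with
    | none => rw [hu] at h1; simp at h1
    | some l1 =>
      rw [hu] at h1 h2
      simp only [Option.bind_some] at h1 h2
      cases ha : run a l1 with
      | none => rw [ha] at h1; simp at h1
      | some l2 =>
        cases hb : run b l1 with
        | none => rw [hb] at h2; simp at h2
        | some l3 =>
          have h3 := same_of_move h l1 l2 l3 ha hb
          subst h3
          rw [T_congr (good_of_move h) ha hb (T_mem_Sup hu hx)]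
  | rotate u v hu hD hD' =>
    unfold psi
    have h1 := D.closed
    rw [hD, run_append, hu] at h1
    simp only [Option.bind_some] at h1
    rw [hD, hD', T_comp, T_comp]
    exact tr_comm (fun x hx => T_mem_Sup hu hx) (fun x hx => T_mem_Sup h1 hx)

end Pool.Agent.P8H80.SK
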